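import Pool.Agent.FSH.Tight

/-!
# Consequences, in terms of the vectors
-/

open scoped BigOperators ComplexConjugate
open Matrix

namespace FSH

variable {𝕜 : Type*} [RCLike 𝕜] {ι : Type*} [Fintype ι] [DecidableEq ι]
variable {a : ι → ℝ} {v : ι → Fin 3 → 𝕜}

/-- sum over the pairs whose flat satisfies `p` -/
noncomputable def pr (v : ι → Fin 3 → 𝕜) (a : ι → ℝ) (p : ℕ → Prop) [DecidablePred p] : ℝ :=
  ∑ q ∈ (Finset.univ : Finset ι).offDiag.filter (fun q => p (flat v q.1 q.2).card), a q.1 * a q.2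

lemma offDiag_sum_le (h : Stab a v) (R : ι → ι → Prop) [DecidableRel R] (s : Finset (ι × ι))
    (hs : ∀ q ∈ s, R q.1 q.2) :
    ∑ q ∈ s, a q.1 * a q.2 ≤ ∑ i, ∑ j, a i * a j * (if R i j then (1:ℝ) else 0) := by
  rw [← Finset.sum_product']
  calc ∑ q ∈ s, a q.1 * a q.2 = ∑ q ∈ s, a q.1 * a q.2 * (if R q.1 q.2 then (1:ℝ) else 0) :=
        Finset.sum_congr rfl fun q hq => by rw [if_pos (hs q hq), mul_one]
    _ ≤ _ := Finset.sum_le_sum_of_subset_of_nonneg (fun q _ => by simp) fun q _ _ =>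
        mul_nonneg (mul_nonneg (h.pos _).le (h.pos _).le) (by split_ifs <;> norm_num)

open Classical in
/-- double points are rare -/
theorem dbl_le (h : Stab a v) (heq : ∑ P ∈ flats v, cw a P = 3) {η : ℝ}
    (hη : ∀ i j, i ≠ j → ∑ k ∈ flat v i j, a k ≤ η) :
    pr v a (fun r => r = 2) ≤ 9 * (40 * η / 3) ^ ((1:ℝ) / 25) := by
  obtain ⟨e, he, hdt, h2, h3⟩ := h.tight heq
  refine le_trans (offDiag_sum_le h (fun i j => i ≠ j ∧ (flat v i j).card = 2) _ ?_)
    (density h he hdt hη (c := 0) (by norm_num) (fun i j => i ≠ j ∧ (flat v i j).card = 2)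
      fun i j hij => h2 i j hij.1 hij.2)
  intro q hq
  rw [Finset.mem_filter, Finset.mem_offDiag] at hq
  exact ⟨hq.1.2.2, hq.2⟩

/-- the angle in a tight triple -/
lemma triple_angle {e : ι → Fin 3 → 𝕜} (he : ∀ i, nsq (e i) = 1) {i j k : ι}
    (ha : ∀ i, 0 < a i)
    (h3 : ∀ l, l = i ∨ l = j ∨ l = k → a i * ‖ip (e i) (e l)‖ ^ 2 + a j * ‖ip (e j) (e l)‖ ^ 2 +
      a k * ‖ip (e k) (e l)‖ ^ 2 = (a i + a j + a k) / 2) :
    ‖ip (e i) (e j)‖ ^ 2 = (a k ^ 2 - (a i - a j) ^ 2) / (4 * a i * a j) := by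
  have hs : ∀ x y : ι, ‖ip (e x) (e y)‖ ^ 2 = ‖ip (e y) (e x)‖ ^ 2 := by
    intro x y
    have : ip (e x) (e y) = conj (ip (e y) (e x)) := by
      simp only [ip, Fin.sum_univ_three, map_add, map_mul, RCLike.conj_conj]
      ring
    rw [this, RCLike.norm_conj]
  have hd : ∀ x : ι, ‖ip (e x) (e x)‖ ^ 2 = 1 := by
    intro x; rw [ip_self, he]; simp
  have e1 := h3 i (Or.inl rfl)
  have e2 := h3 j (Or.inr (Or.inl rfl))
  have e3 := h3 k (Or.inr (Or.inr rfl))
  rw [hd, hs j i, hs k i] at e1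
  rw [hd, hs k j] at e2
  rw [hd] at e3
  have hi := ha i
  have hj := ha j
  rw [eq_div_iff (by positivity)]
  nlinarith [e1, e2, e3, congrArg (fun t => a i * t) e1, congrArg (fun t => a j * t) e2,
    congrArg (fun t => a k * t) e3]

/-- two of the three lines through a triple point carry at least a third of the mass -/
lemma triple_mass (ha : ∀ i, 0 < a i) {P : Finset ι} (hP : P.card = 3) :
    ∑ q ∈ P.offDiag, a q.1 * a q.2 ≤
      3 * ∑ q ∈ P.offDiag.filter (fun q => ∀ k ∈ P, k ≠ q.1 → k ≠ q.2 → a k ≤ a q.1 ∧ a k ≤ a q.2),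
        a q.1 * a q.2 := by
  obtain ⟨m, hmP, hm⟩ := Finset.exists_min_image P a (Finset.card_pos.1 (by omega))
  have h2 : (P.erase m).card = 2 := by rw [Finset.card_erase_of_mem hmP, hP]
  obtain ⟨x, y, hxy, hxyP⟩ := Finset.card_eq_two.1 h2
  have hx : x ∈ P.erase m := by rw [hxyP]; simp
  have hy : y ∈ P.erase m := by rw [hxyP]; simp
  rw [Finset.mem_erase] at hx hy
  have hPe : P = {m, x, y} := by
    rw [← Finset.insert_erase hmP, hxyP]
  have hmx := hm x hx.2
  have hmy := hm y hy.2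
  have hax := ha x
  have hay := ha y
  have ham := ha m
  have hsum : ∑ q ∈ P.offDiag, a q.1 * a q.2 = 2 * (a m * a x + a m * a y + a x * a y) := by
    have h := sq_sum_eq P a
    rw [hPe] at h ⊢
    have hmem1 : m ∉ ({x, y} : Finset ι) := by simp [hx.1.symm, hy.1.symm]
    rw [Finset.sum_insert hmem1, Finset.sum_pair hxy, Finset.sum_insert hmem1,
      Finset.sum_pair hxy] at h
    linarith
  have hgood : 2 * (a x * a y) ≤ ∑ q ∈ P.offDiag.filter
      (fun q => ∀ k ∈ P, k ≠ q.1 → k ≠ q.2 → a k ≤ a q.1 ∧ a k ≤ a q.2), a q.1 * a q.2 := by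
    have hkk : ∀ k ∈ P, k ≠ x → k ≠ y → k = m := by
      intro k hk h1 h2
      rw [hPe] at hk
      simp only [Finset.mem_insert, Finset.mem_singleton] at hk
      rcases hk with rfl | rfl | rfl
      · rfl
      · exact absurd rfl h1
      · exact absurd rfl h2
    have hsub : ({(x, y), (y, x)} : Finset (ι × ι)) ⊆ P.offDiag.filter
        (fun q => ∀ k ∈ P, k ≠ q.1 → k ≠ q.2 → a k ≤ a q.1 ∧ a k ≤ a q.2) := by
      intro q hq
      simp only [Finset.mem_insert, Finset.mem_singleton] at hq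
      rw [Finset.mem_filter, Finset.mem_offDiag]
      rcases hq with rfl | rfl
      · refine ⟨⟨hx.2, hy.2, hxy⟩, ?_⟩
        intro k hk h1 h2
        rw [hkk k hk h1 h2]; exact ⟨hmx, hmy⟩
      · refine ⟨⟨hy.2, hx.2, hxy.symm⟩, ?_⟩
        intro k hk h1 h2
        rw [hkk k hk h2 h1]; exact ⟨hmy, hmx⟩
    calc 2 * (a x * a y) = ∑ q ∈ ({(x, y), (y, x)} : Finset (ι × ι)), a q.1 * a q.2 := by
          rw [Finset.sum_pair (by simp [hxy])]; ring
      _ ≤ _ := Finset.sum_le_sum_of_subset_of_nonneg hsub fun q _ _ =>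
          mul_nonneg (ha _).le (ha _).le
  rw [hsum]
  nlinarith [mul_le_mul_of_nonneg_right hmy hax.le, mul_le_mul_of_nonneg_right hmx hay.le]

open Classical in
/-- triple points are rare when there are few weights -/
theorem tri_le (h : Stab a v) (heq : ∑ P ∈ flats v, cw a P = 3) {η : ℝ}
    (hη : ∀ i j, i ≠ j → ∑ k ∈ flat v i j, a k ≤ η) :
    pr v a (fun r => r = 3) ≤
      27 * ((Finset.univ.image a).card : ℝ) ^ 3 * (40 * η / 3) ^ ((1:ℝ) / 25) := by
  obtain ⟨e, he, hdt, h2, h3⟩ := h.tight heq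
  have hPI := h.PI
  set W := Finset.univ.image a with hW
  -- the good pairs
  set good : ι × ι → Prop := fun q => (flat v q.1 q.2).card = 3 ∧
    ∀ k ∈ flat v q.1 q.2, k ≠ q.1 → k ≠ q.2 → a k ≤ a q.1 ∧ a k ≤ a q.2 with hgood
  have hstep1 : pr v a (fun r => r = 3) ≤
      3 * ∑ q ∈ (Finset.univ : Finset ι).offDiag.filter good, a q.1 * a q.2 := by
    unfold pr
    rw [Finset.sum_filter, Finset.sum_filter,
      ← hPI.sum_flats (fun q => if (flat v q.1 q.2).card = 3 then a q.1 * a q.2 else 0),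
      ← hPI.sum_flats (fun q => if good q then a q.1 * a q.2 else 0), Finset.mul_sum]
    refine Finset.sum_le_sum fun P hP => ?_
    have hfl : ∀ q ∈ P.offDiag, flat v q.1 q.2 = P := by
      intro q hq
      rw [Finset.mem_offDiag] at hq
      exact (hPI.flat_unique hP hq.1 hq.2.1 hq.2.2).symm
    by_cases hc : P.card = 3
    · have e1 : ∑ q ∈ P.offDiag, (if (flat v q.1 q.2).card = 3 then a q.1 * a q.2 else 0) =
          ∑ q ∈ P.offDiag, a q.1 * a q.2 :=
        Finset.sum_congr rfl fun q hq => by rw [hfl q hq, if_pos hc]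
      have e2 : ∑ q ∈ P.offDiag, (if good q then a q.1 * a q.2 else 0) =
          ∑ q ∈ P.offDiag.filter
            (fun q => ∀ k ∈ P, k ≠ q.1 → k ≠ q.2 → a k ≤ a q.1 ∧ a k ≤ a q.2), a q.1 * a q.2 := by
        rw [Finset.sum_filter]
        refine Finset.sum_congr rfl fun q hq => ?_
        simp only [hgood]
        rw [hfl q hq]
        simp only [hc, true_and]
      rw [e1, e2]
      exact triple_mass h.pos hc
    · have e1 : ∑ q ∈ P.offDiag, (if (flat v q.1 q.2).card = 3 then a q.1 * a q.2 else 0) = 0 :=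
        Finset.sum_eq_zero fun q hq => by rw [hfl q hq, if_neg hc]
      rw [e1]
      refine mul_nonneg (by norm_num) (Finset.sum_nonneg fun q _ => ?_)
      split_ifs
      · exact mul_nonneg (h.pos _).le (h.pos _).le
      · exact le_rfl
  -- types
  set typ : ι × ι → ℝ × ℝ × ℝ → Prop := fun q t => a q.1 = t.1 ∧ a q.2 = t.2.1 ∧
    ∃ k ∈ flat v q.1 q.2, k ≠ q.1 ∧ k ≠ q.2 ∧ a k = t.2.2 with htyp
  have hstep2 : ∑ q ∈ (Finset.univ : Finset ι).offDiag.filter good, a q.1 * a q.2 ≤
      ∑ t ∈ W ×ˢ W ×ˢ W, ∑ q ∈ ((Finset.univ : Finset ι).offDiag.filter good).filter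
        (fun q => typ q t), a q.1 * a q.2 := by
    have hcov : ∀ q ∈ (Finset.univ : Finset ι).offDiag.filter good, ∃ t ∈ W ×ˢ W ×ˢ W, typ q t := by
      intro q hq
      rw [Finset.mem_filter, Finset.mem_offDiag] at hq
      obtain ⟨⟨_, _, hne⟩, hc, _⟩ := hq
      have h1 : ((flat v q.1 q.2).erase q.1).card = 2 := by
        rw [Finset.card_erase_of_mem (left_mem_flat v _ _), hc]
      have h2' : (((flat v q.1 q.2).erase q.1).erase q.2).card = 1 := by
        rw [Finset.card_erase_of_mem (Finset.mem_erase.2 ⟨hne.symm, right_mem_flat v _ _⟩), h1]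
      obtain ⟨k, hk⟩ := Finset.card_eq_one.1 h2'
      have hkm : k ∈ ((flat v q.1 q.2).erase q.1).erase q.2 := by rw [hk]; simp
      rw [Finset.mem_erase, Finset.mem_erase] at hkm
      refine ⟨(a q.1, a q.2, a k), ?_, rfl, rfl, k, hkm.2.2, hkm.2.1, hkm.1, rfl⟩
      simp only [Finset.mem_product, hW, Finset.mem_image, Finset.mem_univ, true_and]
      exact ⟨⟨_, rfl⟩, ⟨_, rfl⟩, ⟨_, rfl⟩⟩
    calc _ ≤ ∑ q ∈ (Finset.univ : Finset ι).offDiag.filter good,
          ∑ t ∈ W ×ˢ W ×ˢ W, (if typ q t then a q.1 * a q.2 else 0) := by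
          refine Finset.sum_le_sum fun q hq => ?_
          obtain ⟨t, ht, htq⟩ := hcov q hq
          calc a q.1 * a q.2 = (if typ q t then a q.1 * a q.2 else 0) := by rw [if_pos htq]
            _ ≤ _ := Finset.single_le_sum
                (f := fun t => if typ q t then a q.1 * a q.2 else 0)
                (fun t _ => by
                  split_ifs
                  · exact mul_nonneg (h.pos _).le (h.pos _).le
                  · exact le_rfl) ht
      _ = _ := by
          rw [Finset.sum_comm]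
          refine Finset.sum_congr rfl fun t _ => ?_
          rw [Finset.sum_filter (s := (Finset.univ : Finset ι).offDiag.filter good)]
  have hq0 : 0 ≤ 9 * (40 * η / 3) ^ ((1:ℝ) / 25) := by
    obtain ⟨i⟩ := h.nonempty
    obtain ⟨j, hj⟩ := h.exists_ne i
    have h1 : 0 ≤ η := le_trans (Finset.sum_nonneg fun k _ => (h.pos k).le) (hη i j hj.symm)
    positivity
  have hstep3 : ∀ t ∈ W ×ˢ W ×ˢ W, ∑ q ∈ ((Finset.univ : Finset ι).offDiag.filter good).filter
        (fun q => typ q t), a q.1 * a q.2 ≤ 9 * (40 * η / 3) ^ ((1:ℝ) / 25) := by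
    intro t _
    by_cases hemp : (((Finset.univ : Finset ι).offDiag.filter good).filter
        (fun q => typ q t)) = ∅
    · rw [hemp, Finset.sum_empty]; exact hq0
    set c : ℝ := (t.2.2 ^ 2 - (t.1 - t.2.1) ^ 2) / (4 * t.1 * t.2.1) with hc
    have hcval : ∀ q ∈ ((Finset.univ : Finset ι).offDiag.filter good).filter
        (fun q => typ q t), ‖ip (e q.1) (e q.2)‖ ^ 2 = c ∧ t.2.2 ≤ t.1 ∧ t.2.2 ≤ t.2.1 ∧ 0 < t.1 ∧
          0 < t.2.1 ∧ 0 < t.2.2 := by
      intro q hq
      rw [Finset.mem_filter, Finset.mem_filter, Finset.mem_offDiag] at hq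
      obtain ⟨⟨⟨_, _, hne⟩, hcard, hsm⟩, h1, h2', k, hk, hk1, hk2, hk3⟩ := hq
      have hFl : flat v q.1 q.2 = {q.1, q.2, k} := by
        symm
        refine Finset.eq_of_subset_of_card_le ?_ ?_
        · intro x hx
          simp only [Finset.mem_insert, Finset.mem_singleton] at hx
          rcases hx with rfl | rfl | rfl
          · exact left_mem_flat v _ _
          · exact right_mem_flat v _ _
          · exact hk
        · rw [hcard, Finset.card_insert_of_notMem, Finset.card_pair hk2.symm]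
          simp [hne, hk1.symm]
      have hsumFl : ∀ f : ι → ℝ, ∑ x ∈ flat v q.1 q.2, f x = f q.1 + f q.2 + f k := by
        intro f
        rw [hFl, Finset.sum_insert (by simp [hne, hk1.symm]), Finset.sum_pair hk2.symm]
        ring
      have htr := triple_angle (a := a) he (i := q.1) (j := q.2) (k := k) h.pos (by
        intro l hl
        have := h3 q.1 q.2 hne (by rw [hcard]; norm_num) l (by
          rw [hFl]; simp only [Finset.mem_insert, Finset.mem_singleton]; exact hl)
        rw [hsumFl, hsumFl] at this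
        exact this)
      rw [h1, h2', hk3] at htr
      obtain ⟨h4, h5⟩ := hsm k hk hk1 hk2
      rw [h1, hk3] at h4
      rw [h2', hk3] at h5
      refine ⟨htr, h4, h5, ?_, ?_, ?_⟩
      · rw [← h1]; exact h.pos _
      · rw [← h2']; exact h.pos _
      · rw [← hk3]; exact h.pos _
    obtain ⟨q0, hq0'⟩ := Finset.nonempty_iff_ne_empty.2 hemp
    obtain ⟨_, g1, g2, g3, g4, g5⟩ := hcval q0 hq0'
    have hc3 : c ≠ 1 / 3 := by
      intro hcc
      rw [hc, div_eq_iff (by positivity)] at hcc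
      nlinarith [mul_le_mul g1 g2 g5.le g3.le, sq_nonneg (t.1 - t.2.1), mul_pos g3 g4]
    refine le_trans (offDiag_sum_le h (fun i j => (i, j) ∈
        (((Finset.univ : Finset ι).offDiag.filter good).filter (fun q => typ q t))) _
        fun q hq => hq)
      (density h he hdt hη hc3 (fun i j => (i, j) ∈
        (((Finset.univ : Finset ι).offDiag.filter good).filter (fun q => typ q t)))
        fun i j hij => (hcval (i, j) hij).1)
  calc pr v a (fun r => r = 3) ≤ 3 * ∑ t ∈ W ×ˢ W ×ˢ W, (9 * (40 * η / 3) ^ ((1:ℝ) / 25)) :=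
        hstep1.trans (mul_le_mul_of_nonneg_left (hstep2.trans (Finset.sum_le_sum hstep3))
          (by norm_num))
    _ = 27 * (W.card : ℝ) ^ 3 * (40 * η / 3) ^ ((1:ℝ) / 25) := by
        rw [Finset.sum_const, Finset.card_product, Finset.card_product, nsmul_eq_mul]
        push_cast; ring

end FSH
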