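import Mathlib

/-!
# Line arrangements in the complex projective plane: definitions
-/

open scoped BigOperators

namespace FSH

/-- A finite set of lines of the complex projective plane: a finite set of two-dimensional
subspaces of `ℂ³`.  (Points of the plane are the one-dimensional subspaces.) -/
def IsLines (A : Finset (Submodule ℂ (Fin 3 → ℂ))) : Prop := ∀ H ∈ A, Module.finrank ℂ H = 2

open Classical in
/-- The lines of `A` through the point `p`. -/
noncomputable def through (A : Finset (Submodule ℂ (Fin 3 → ℂ))) (p : Submodule ℂ (Fin 3 → ℂ)) :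
    Finset (Submodule ℂ (Fin 3 → ℂ)) := A.filter fun H => p ≤ H

open Classical in
/-- The multiple points of `A`: the intersection points of two distinct lines of `A`. -/
noncomputable def points (A : Finset (Submodule ℂ (Fin 3 → ℂ))) :
    Finset (Submodule ℂ (Fin 3 → ℂ)) := A.offDiag.image fun q => q.1 ⊓ q.2

open Classical in
/-- Hirzebruch's property: every line of `A` carries exactly `|A| / 3 + 1` multiple points. -/
def Hirzebruch (A : Finset (Submodule ℂ (Fin 3 → ℂ))) : Prop :=
  ∀ H ∈ A, 3 * ((points A).filter fun p => p ≤ H).card = A.card + 3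

/-- the total weight of the lines of `A` through `p` -/
noncomputable def weightAt (A : Finset (Submodule ℂ (Fin 3 → ℂ)))
    (a : Submodule ℂ (Fin 3 → ℂ) → ℝ) (p : Submodule ℂ (Fin 3 → ℂ)) : ℝ :=
  ∑ H ∈ through A p, a H

/-- the local number `c_p`: the product of the two weights at a double point, a quarter of the
square of the total weight at a point of higher multiplicity -/
noncomputable def localNumber (A : Finset (Submodule ℂ (Fin 3 → ℂ)))
    (a : Submodule ℂ (Fin 3 → ℂ) → ℝ) (p : Submodule ℂ (Fin 3 → ℂ)) : ℝ :=
  if (through A p).card = 2 then ∏ H ∈ through A p, a H else weightAt A a p ^ 2 / 4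

/-- flat weights: positive, of sum `3`, and the sum of the local numbers is `3` -/
structure FlatWeights (A : Finset (Submodule ℂ (Fin 3 → ℂ)))
    (a : Submodule ℂ (Fin 3 → ℂ) → ℝ) : Prop where
  pos : ∀ H ∈ A, 0 < a H
  sum : ∑ H ∈ A, a H = 3
  euler : ∑ p ∈ points A, localNumber A a p = 3

end FSH
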