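import Pool.Agent.FSH.Equal
import Pool.Agent.FSH.Defs

/-!
# Lines of the complex projective plane as subspaces of `ℂ³`
-/

open scoped BigOperators ComplexConjugate
open Matrix

namespace FSH

lemma exists_normal_vector {H : Submodule ℂ (Fin 3 → ℂ)} (hH : Module.finrank ℂ H = 2) :
    ∃ v : Fin 3 → ℂ, ∀ x, x ∈ H ↔ v ⬝ᵥ x = 0 := by
  have hlt : H < ⊤ := by
    rw [lt_top_iff_ne_top]
    rintro rfl
    rw [finrank_top] at hH
    simp at hH
  obtain ⟨f, hf0, hf⟩ := Submodule.exists_le_ker_of_lt_top H hlt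
  have hker : Module.finrank ℂ (LinearMap.ker f) = 2 := by
    have h1 := LinearMap.finrank_range_add_finrank_ker f
    have h2 : Module.finrank ℂ (LinearMap.range f) = 1 := by
      have h3 : LinearMap.range f = ⊤ := LinearMap.range_eq_top.2 (LinearMap.surjective hf0)
      rw [h3, finrank_top]; simp
    rw [h2] at h1
    simp at h1
    omega
  have heq : H = LinearMap.ker f := Submodule.eq_of_le_of_finrank_eq hf (by rw [hH, hker])
  refine ⟨fun i => f (Pi.single i 1), fun x => ?_⟩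
  have hx : f x = (fun i => f (Pi.single i 1)) ⬝ᵥ x := by
    conv_lhs => rw [← Finset.univ_sum_single x]
    rw [map_sum]
    simp only [dotProduct]
    refine Finset.sum_congr rfl fun i _ => ?_
    have : (Pi.single i (x i) : Fin 3 → ℂ) = x i • Pi.single i (1:ℂ) := by
      rw [← Pi.single_smul]; simp
    rw [this, map_smul, smul_eq_mul, mul_comm]
  rw [heq, LinearMap.mem_ker, hx]

lemma cross_self_orth (x y : Fin 3 → ℂ) : x ⬝ᵥ (x ⨯₃ y) = 0 ∧ y ⬝ᵥ (x ⨯₃ y) = 0 := by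
  constructor <;> simp

lemma le_of_par {H K : Submodule ℂ (Fin 3 → ℂ)} {v w : Fin 3 → ℂ} (hH : ∀ x, x ∈ H ↔ v ⬝ᵥ x = 0)
    (hK : ∀ x, x ∈ K ↔ w ⬝ᵥ x = 0) (hv : v ≠ 0) (h : v ⨯₃ w = 0) : H ≤ K := by
  intro x hx
  rw [hH] at hx
  rw [hK]
  refine par_dot hv (fun a b => ?_) hx
  rw [cross_apply] at h
  have h0 := congrFun h 0
  have h1 := congrFun h 1
  have h2 := congrFun h 2
  simp at h0 h1 h2
  fin_cases a <;> fin_cases b <;> simp <;>
    first
      | ring1
      | linear_combination h0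
      | linear_combination -h0
      | linear_combination h1
      | linear_combination -h1
      | linear_combination h2
      | linear_combination -h2

lemma normal_ne_zero {H : Submodule ℂ (Fin 3 → ℂ)} {v : Fin 3 → ℂ} (h2 : Module.finrank ℂ H = 2)
    (hH : ∀ x, x ∈ H ↔ v ⬝ᵥ x = 0) : v ≠ 0 := by
  rintro rfl
  have : H = ⊤ := by
    ext x; rw [hH]; simp
  rw [this, finrank_top] at h2
  simp at h2

/-- Normal vectors of an arrangement. -/
theorem exists_normals {A : Finset (Submodule ℂ (Fin 3 → ℂ))} (hA : IsLines A) :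
    ∃ v : {H // H ∈ A} → Fin 3 → ℂ, PI v ∧
      ∀ i j k, i ≠ j → (k ∈ flat v i j ↔ i.1 ⊓ j.1 ≤ k.1) := by
  classical
  choose v hv using fun i : {H // H ∈ A} => exists_normal_vector (hA i.1 i.2)
  have hne : ∀ i, v i ≠ 0 := fun i => normal_ne_zero (hA i.1 i.2) (hv i)
  have hPI : PI v := by
    intro i j hij h0
    have h1 : i.1 ≤ j.1 := le_of_par (hv i) (hv j) (hne i) h0
    have h2 : i.1 = j.1 := Submodule.eq_of_le_of_finrank_eq h1 (by rw [hA i.1 i.2, hA j.1 j.2])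
    exact hij (Subtype.ext h2)
  refine ⟨v, hPI, ?_⟩
  intro i j k hij
  rw [mem_flat, dt_eq_dot]
  constructor
  · intro hk x hx
    rw [Submodule.mem_inf, hv i, hv j] at hx
    rw [hv k]
    rw [dotProduct_comm] at hx
    have hx2 := hx.2
    rw [dotProduct_comm] at hx2
    have hpar := cross_par hx.1 hx2
    rw [dotProduct_comm]
    exact par_dot (hPI i j hij) (fun a b => by
      have := hpar b a
      linear_combination this) hk
  · intro hle
    have hmem : v i ⨯₃ v j ∈ i.1 ⊓ j.1 := by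
      rw [Submodule.mem_inf, hv i, hv j]
      exact cross_self_orth _ _
    have := hle hmem
    rw [hv k] at this
    rw [dotProduct_comm]; exact this

section

variable {A : Finset (Submodule ℂ (Fin 3 → ℂ))} {v : {H // H ∈ A} → Fin 3 → ℂ}

open Classical in
/-- the flat of a point -/
noncomputable def flt (A : Finset (Submodule ℂ (Fin 3 → ℂ))) (p : Submodule ℂ (Fin 3 → ℂ)) :
    Finset {H // H ∈ A} := Finset.univ.filter fun k => p ≤ k.1

lemma flt_eq (hv : ∀ i j k, i ≠ j → (k ∈ flat v i j ↔ i.1 ⊓ j.1 ≤ k.1)) {i j : {H // H ∈ A}}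
    (hij : i ≠ j) : flt A (i.1 ⊓ j.1) = flat v i j := by
  ext k
  rw [hv i j k hij]
  simp [flt]

lemma flt_injOn : Set.InjOn (flt A) (points A : Set (Submodule ℂ (Fin 3 → ℂ))) := by
  classical
  intro p hp q hq hpq
  rw [Finset.mem_coe, points, Finset.mem_image] at hp hq
  obtain ⟨⟨H, H'⟩, hHH, rfl⟩ := hp
  obtain ⟨⟨K, K'⟩, hKK, rfl⟩ := hq
  rw [Finset.mem_offDiag] at hHH hKK
  simp only at hHH hKK hpq ⊢
  have hmem : ∀ (p : Submodule ℂ (Fin 3 → ℂ)) (L : Submodule ℂ (Fin 3 → ℂ)) (hL : L ∈ A),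
      (⟨L, hL⟩ : {H // H ∈ A}) ∈ flt A p ↔ p ≤ L := by
    intro p L hL
    simp [flt]
  apply le_antisymm
  · refine le_inf ?_ ?_
    · rw [← hmem _ K hKK.1, hpq, hmem]; exact inf_le_left
    · rw [← hmem _ K' hKK.2.1, hpq, hmem]; exact inf_le_right
  · refine le_inf ?_ ?_
    · rw [← hmem _ H hHH.1, ← hpq, hmem]; exact inf_le_left
    · rw [← hmem _ H' hHH.2.1, ← hpq, hmem]; exact inf_le_right

open Classical in
lemma flats_eq_image (hv : ∀ i j k, i ≠ j → (k ∈ flat v i j ↔ i.1 ⊓ j.1 ≤ k.1)) :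
    flats v = (points A).image (flt A) := by
  ext P
  rw [mem_flats, Finset.mem_image]
  constructor
  · rintro ⟨i, j, hij, rfl⟩
    refine ⟨i.1 ⊓ j.1, ?_, flt_eq hv hij⟩
    rw [points, Finset.mem_image]
    exact ⟨(i.1, j.1), Finset.mem_offDiag.2 ⟨i.2, j.2, fun h => hij (Subtype.ext h)⟩, rfl⟩
  · rintro ⟨p, hp, rfl⟩
    rw [points, Finset.mem_image] at hp
    obtain ⟨⟨H, H'⟩, hHH, rfl⟩ := hp
    rw [Finset.mem_offDiag] at hHH
    have hne : (⟨H, hHH.1⟩ : {H // H ∈ A}) ≠ ⟨H', hHH.2.1⟩ := fun h =>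
      hHH.2.2 (congrArg Subtype.val h)
    exact ⟨⟨H, hHH.1⟩, ⟨H', hHH.2.1⟩, hne, (flt_eq hv hne).symm⟩

open Classical in
lemma sum_flats_eq (hv : ∀ i j k, i ≠ j → (k ∈ flat v i j ↔ i.1 ⊓ j.1 ≤ k.1))
    (F : Finset {H // H ∈ A} → ℝ) : ∑ P ∈ flats v, F P = ∑ p ∈ points A, F (flt A p) := by
  rw [flats_eq_image hv, Finset.sum_image flt_injOn]

lemma sum_flt (p : Submodule ℂ (Fin 3 → ℂ)) (f : Submodule ℂ (Fin 3 → ℂ) → ℝ) :
    ∑ k ∈ flt A p, f k.1 = ∑ H ∈ through A p, f H := by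
  classical
  rw [flt, through, Finset.sum_filter, Finset.sum_filter]
  exact (Finset.sum_coe_sort A (fun H => if p ≤ H then f H else 0))

lemma prod_flt (p : Submodule ℂ (Fin 3 → ℂ)) (f : Submodule ℂ (Fin 3 → ℂ) → ℝ) :
    ∏ k ∈ flt A p, f k.1 = ∏ H ∈ through A p, f H := by
  classical
  rw [flt, through, Finset.prod_filter, Finset.prod_filter]
  exact (Finset.prod_coe_sort A (fun H => if p ≤ H then f H else 1))

lemma card_flt (p : Submodule ℂ (Fin 3 → ℂ)) : (flt A p).card = (through A p).card := by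
  have h := sum_flt (A := A) p (fun _ => (1:ℝ))
  simp only [Finset.sum_const, nsmul_eq_mul, mul_one] at h
  exact_mod_cast h

lemma cw_flt (a : Submodule ℂ (Fin 3 → ℂ) → ℝ) (p : Submodule ℂ (Fin 3 → ℂ)) :
    cw (fun k : {H // H ∈ A} => a k.1) (flt A p) = localNumber A a p := by
  classical
  unfold cw localNumber
  rw [card_flt]
  by_cases hc : (through A p).card = 2
  · rw [if_pos hc, if_pos hc, ← prod_flt]
    have hc' : (flt A p).card = 2 := by rw [card_flt, hc]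
    obtain ⟨x, y, hxy, hP⟩ := Finset.card_eq_two.1 hc'
    have h := sq_sum_eq (flt A p) (fun k : {H // H ∈ A} => a k.1)
    rw [hP] at h ⊢
    rw [Finset.sum_pair hxy, Finset.sum_pair hxy] at h
    rw [Finset.prod_pair hxy]
    linarith
  · rw [if_neg hc, if_neg hc, sum_flt]
    rfl

open Classical in
lemma HZ_of_Hirzebruch (hv : ∀ i j k, i ≠ j → (k ∈ flat v i j ↔ i.1 ⊓ j.1 ≤ k.1))
    (hH : Hirzebruch A) : HZ v := by
  intro k
  rw [Fintype.card_coe, ← hH k.1 k.2]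
  congr 1
  rw [flats_eq_image hv, Finset.filter_image, Finset.card_image_of_injOn]
  · congr 1
    ext p
    simp [flt]
  · intro p hp q hq hpq
    rw [Finset.mem_coe, Finset.mem_filter] at hp hq
    exact flt_injOn hp.1 hq.1 hpq

open Classical in
/-- sums over ordered pairs of lines -/
lemma sum_pairs (hv : ∀ i j k, i ≠ j → (k ∈ flat v i j ↔ i.1 ⊓ j.1 ≤ k.1)) (P : ℕ → Prop)
    [DecidablePred P] (f : Submodule ℂ (Fin 3 → ℂ) → Submodule ℂ (Fin 3 → ℂ) → ℝ) :
    ∑ q ∈ A.offDiag.filter (fun q => P (through A (q.1 ⊓ q.2)).card), f q.1 q.2 =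
    ∑ q ∈ (Finset.univ : Finset {H // H ∈ A}).offDiag.filter
      (fun q => P (flat v q.1 q.2).card), f q.1.1 q.2.1 := by
  symm
  refine Finset.sum_bij (fun q _ => (q.1.1, q.2.1)) ?_ ?_ ?_ ?_
  · intro q hq
    rw [Finset.mem_filter, Finset.mem_offDiag] at hq ⊢
    refine ⟨⟨q.1.2, q.2.2, fun h => hq.1.2.2 (Subtype.ext h)⟩, ?_⟩
    rw [← card_flt, flt_eq hv hq.1.2.2]
    exact hq.2
  · intro q _ q' _ h
    rw [Prod.mk.injEq] at h
    exact Prod.ext (Subtype.ext h.1) (Subtype.ext h.2)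
  · rintro ⟨H, H'⟩ hq
    rw [Finset.mem_filter, Finset.mem_offDiag] at hq
    have hne : (⟨H, hq.1.1⟩ : {H // H ∈ A}) ≠ ⟨H', hq.1.2.1⟩ := fun h =>
      hq.1.2.2 (congrArg Subtype.val h)
    refine ⟨(⟨H, hq.1.1⟩, ⟨H', hq.1.2.1⟩), ?_, rfl⟩
    rw [Finset.mem_filter, Finset.mem_offDiag]
    refine ⟨⟨Finset.mem_univ _, Finset.mem_univ _, hne⟩, ?_⟩
    rw [← flt_eq hv hne, card_flt]
    exact hq.2
  · intro q _
    rfl

open Classical in
lemma card_pairs (hv : ∀ i j k, i ≠ j → (k ∈ flat v i j ↔ i.1 ⊓ j.1 ≤ k.1)) (P : ℕ → Prop)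
    [DecidablePred P] :
    ((A.offDiag.filter (fun q => P (through A (q.1 ⊓ q.2)).card)).card : ℝ) = np v P := by
  have h := sum_pairs hv P (fun _ _ => (1:ℝ))
  simp only [Finset.sum_const, nsmul_eq_mul, mul_one] at h
  rw [h]
  rfl

end

end FSH
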