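import Mathlib

/-!
# Counting homomorphisms of `K_{5,5}`

A weighted version: if a `0/1`-relation `e` on a probability space `(ι, b)` has the property that
every pair of `5`-tuples completely joined by `e` contains a degenerate triple on one side, then
the density of `e` is at most `(20 θ)^{1/25}`, `θ` the mass of the degenerate triples.
-/

open scoped BigOperators

namespace FSH

variable {ι : Type*} [Fintype ι]

/-- weight of a `5`-tuple -/
noncomputable def w5 (b : ι → ℝ) (i : Fin 5 → ι) : ℝ := ∏ a, b (i a)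

lemma w5_nonneg {b : ι → ℝ} (hb : ∀ i, 0 ≤ b i) (i : Fin 5 → ι) : 0 ≤ w5 b i :=
  Finset.prod_nonneg fun a _ => hb _

lemma sum_w5 {b : ι → ℝ} (hb : ∑ i, b i = 1) : ∑ i : Fin 5 → ι, w5 b i = 1 := by
  classical
  unfold w5
  rw [← Fintype.sum_pow b 5, hb, one_pow]

open Classical in
lemma marg (b : ι → ℝ) (hb : ∑ i, b i = 1) (f : ι → ι → ι → ℝ) (a c d : Fin 5) (hac : a ≠ c)
    (had : a ≠ d) (hcd : c ≠ d) :
    ∑ i : Fin 5 → ι, w5 b i * f (i a) (i c) (i d) =
      ∑ x, ∑ y, ∑ z, b x * b y * b z * f x y z := by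
  have inner : ∀ x y z : ι, ∑ i : Fin 5 → ι, w5 b i * ((if i a = x then (1:ℝ) else 0) *
      (if i c = y then (1:ℝ) else 0) * (if i d = z then (1:ℝ) else 0)) = b x * b y * b z := by
    intro x y z
    have h1 : ∀ i : Fin 5 → ι, w5 b i * ((if i a = x then (1:ℝ) else 0) *
        (if i c = y then (1:ℝ) else 0) * (if i d = z then (1:ℝ) else 0)) =
        ∏ m : Fin 5, (b (i m) * ((if m = a then (if i m = x then (1:ℝ) else 0) else 1) *
          (if m = c then (if i m = y then (1:ℝ) else 0) else 1) *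
          (if m = d then (if i m = z then (1:ℝ) else 0) else 1))) := by
      intro i
      rw [Finset.prod_mul_distrib, Finset.prod_mul_distrib, Finset.prod_mul_distrib]
      unfold w5
      rw [Finset.prod_ite_eq' Finset.univ a (fun m => if i m = x then (1:ℝ) else 0),
        Finset.prod_ite_eq' Finset.univ c (fun m => if i m = y then (1:ℝ) else 0),
        Finset.prod_ite_eq' Finset.univ d (fun m => if i m = z then (1:ℝ) else 0)]
      simp
    rw [Finset.sum_congr rfl fun i _ => h1 i]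
    have h2 := (Finset.prod_univ_sum (fun _ : Fin 5 => (Finset.univ : Finset ι))
      (fun m t => b t * ((if m = a then (if t = x then (1:ℝ) else 0) else 1) *
          (if m = c then (if t = y then (1:ℝ) else 0) else 1) *
          (if m = d then (if t = z then (1:ℝ) else 0) else 1)))).symm
    rw [Fintype.piFinset_univ] at h2
    rw [h2]
    have h3 : ∀ m : Fin 5, (∑ t : ι, b t * ((if m = a then (if t = x then (1:ℝ) else 0) else 1) *
          (if m = c then (if t = y then (1:ℝ) else 0) else 1) *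
          (if m = d then (if t = z then (1:ℝ) else 0) else 1))) =
        (if m = a then b x else 1) * (if m = c then b y else 1) * (if m = d then b z else 1) := by
      intro m
      by_cases g1 : m = a
      · subst g1; simp [hac, had]
      · by_cases g2 : m = c
        · subst g2; simp [hac.symm, hcd]
        · by_cases g3 : m = d
          · subst g3; simp [g1, g2]
          · simp [g1, g2, g3, hb]
    rw [Finset.prod_congr rfl fun m _ => h3 m, Finset.prod_mul_distrib, Finset.prod_mul_distrib,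
      Finset.prod_ite_eq', Finset.prod_ite_eq', Finset.prod_ite_eq']
    simp
  have h4 : ∀ i : Fin 5 → ι, w5 b i * f (i a) (i c) (i d) =
      ∑ x, ∑ y, ∑ z, w5 b i * ((if i a = x then (1:ℝ) else 0) *
        (if i c = y then (1:ℝ) else 0) * (if i d = z then (1:ℝ) else 0)) * f x y z := by
    intro i
    simp
  rw [Finset.sum_congr rfl fun i _ => h4 i, Finset.sum_comm]
  refine Finset.sum_congr rfl fun x _ => ?_
  rw [Finset.sum_comm]
  refine Finset.sum_congr rfl fun y _ => ?_
  rw [Finset.sum_comm]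
  refine Finset.sum_congr rfl fun z _ => ?_
  rw [← Finset.sum_mul, inner]

open Classical in
/-- **Counting lemma.** -/
theorem count (b : ι → ℝ) (hb0 : ∀ i, 0 ≤ b i) (hb1 : ∑ i, b i = 1) (e : ι → ι → ℝ)
    (he : ∀ i j, e i j = 0 ∨ e i j = 1) (D : ι → ι → ι → Prop) (θ : ℝ)
    (hθ : ∑ x, ∑ y, ∑ z, b x * b y * b z * (if D x y z then (1:ℝ) else 0) ≤ θ)
    (hK : ∀ i j : Fin 5 → ι, (∀ a c, e (i a) (j c) = 1) →
      (∃ a c d, a < c ∧ c < d ∧ D (i a) (i c) (i d)) ∨
      (∃ a c d, a < c ∧ c < d ∧ D (j a) (j c) (j d))) :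
    (∑ i, ∑ j, b i * b j * e i j) ^ 25 ≤ 20 * θ := by
  set T : Finset (Fin 5 × Fin 5 × Fin 5) :=
    Finset.univ.filter (fun t => t.1 < t.2.1 ∧ t.2.1 < t.2.2) with hT
  have hTc : T.card = 10 := by rw [hT]; decide
  have he0 : ∀ i j, 0 ≤ e i j := fun i j => by rcases he i j with h | h <;> rw [h] <;> norm_num
  set deg : (Fin 5 → ι) → ℝ := fun i =>
    ∑ t ∈ T, (if D (i t.1) (i t.2.1) (i t.2.2) then (1:ℝ) else 0) with hdeg
  have hdeg0 : ∀ i, 0 ≤ deg i := fun i => Finset.sum_nonneg fun t _ => by split_ifs <;> norm_num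
  have hdeg1 : ∀ i, (∃ a c d, a < c ∧ c < d ∧ D (i a) (i c) (i d)) → 1 ≤ deg i := by
    rintro i ⟨a, c, d, h1, h2, h3⟩
    have hmem : ((a, c, d) : Fin 5 × Fin 5 × Fin 5) ∈ T := by simp [hT, h1, h2]
    calc (1:ℝ) = (if D (i a) (i c) (i d) then (1:ℝ) else 0) := by rw [if_pos h3]
      _ ≤ deg i := Finset.single_le_sum (f := fun t : Fin 5 × Fin 5 × Fin 5 =>
          (if D (i t.1) (i t.2.1) (i t.2.2) then (1:ℝ) else 0))
          (fun t _ => by split_ifs <;> norm_num) hmem
  have hdegsum : ∑ i : Fin 5 → ι, w5 b i * deg i ≤ 10 * θ := by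
    simp only [hdeg, Finset.mul_sum]
    rw [Finset.sum_comm]
    have h1 : ∀ t ∈ T, ∑ i : Fin 5 → ι, w5 b i *
        (if D (i t.1) (i t.2.1) (i t.2.2) then (1:ℝ) else 0) ≤ θ := by
      intro t ht
      simp only [hT, Finset.mem_filter, Finset.mem_univ, true_and] at ht
      rw [marg b hb1 (fun x y z => if D x y z then (1:ℝ) else 0) t.1 t.2.1 t.2.2 ht.1.ne
        (ht.1.trans ht.2).ne ht.2.ne]
      exact hθ
    calc _ ≤ ∑ t ∈ T, θ := Finset.sum_le_sum h1
      _ = 10 * θ := by rw [Finset.sum_const, hTc]; simp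
  -- Jensen, first time
  set dj : ι → ℝ := fun j => ∑ i, b i * e i j with hdj
  have hdj0 : ∀ j, 0 ≤ dj j := fun j => Finset.sum_nonneg fun i _ => mul_nonneg (hb0 i) (he0 i j)
  have hp : ∑ i, ∑ j, b i * b j * e i j = ∑ j, b j * dj j := by
    rw [Finset.sum_comm]
    refine Finset.sum_congr rfl fun j _ => ?_
    rw [hdj, Finset.mul_sum]
    refine Finset.sum_congr rfl fun i _ => ?_
    ring
  have J1 : (∑ j, b j * dj j) ^ 5 ≤ ∑ j, b j * dj j ^ 5 :=
    Real.pow_arith_mean_le_arith_mean_pow Finset.univ b dj (fun i _ => hb0 i) hb1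
      (fun i _ => hdj0 i) 5
  set ci : (Fin 5 → ι) → ℝ := fun i => ∑ j, b j * ∏ a, e (i a) j with hci
  have hci0 : ∀ i, 0 ≤ ci i := fun i => Finset.sum_nonneg fun j _ =>
    mul_nonneg (hb0 j) (Finset.prod_nonneg fun a _ => he0 _ _)
  have hsw : ∑ j, b j * dj j ^ 5 = ∑ i : Fin 5 → ι, w5 b i * ci i := by
    simp only [hci, Finset.mul_sum]
    rw [Finset.sum_comm]
    refine Finset.sum_congr rfl fun j _ => ?_
    rw [hdj]
    simp only
    rw [Fintype.sum_pow (fun i => b i * e i j) 5, Finset.mul_sum]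
    refine Finset.sum_congr rfl fun i _ => ?_
    rw [Finset.prod_mul_distrib]
    unfold w5
    ring
  have J2 : (∑ i : Fin 5 → ι, w5 b i * ci i) ^ 5 ≤ ∑ i : Fin 5 → ι, w5 b i * ci i ^ 5 :=
    Real.pow_arith_mean_le_arith_mean_pow Finset.univ (w5 b) ci (fun i _ => w5_nonneg hb0 i)
      (sum_w5 hb1) (fun i _ => hci0 i) 5
  have hfin : ∑ i : Fin 5 → ι, w5 b i * ci i ^ 5 ≤ 20 * θ := by
    have h1 : ∀ i : Fin 5 → ι, w5 b i * ci i ^ 5 ≤
        ∑ j : Fin 5 → ι, (w5 b i * deg i * w5 b j + w5 b i * (w5 b j * deg j)) := by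
      intro i
      rw [hci]
      simp only
      rw [Fintype.sum_pow (fun j => b j * ∏ a, e (i a) j) 5, Finset.mul_sum]
      refine Finset.sum_le_sum fun j _ => ?_
      rw [Finset.prod_mul_distrib]
      have hprod : (∏ c : Fin 5, ∏ a : Fin 5, e (i a) (j c)) ≤ deg i + deg j := by
        by_cases hall : ∀ a c, e (i a) (j c) = 1
        · have hone : (∏ c : Fin 5, ∏ a : Fin 5, e (i a) (j c)) = 1 := by
            refine Finset.prod_eq_one fun c _ => Finset.prod_eq_one fun a _ => hall a c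
          rw [hone]
          rcases hK i j hall with h | h
          · have := hdeg1 i h; have := hdeg0 j; linarith
          · have := hdeg1 j h; have := hdeg0 i; linarith
        · push Not at hall
          obtain ⟨a, c, hac⟩ := hall
          have hz : e (i a) (j c) = 0 := (he _ _).resolve_right hac
          have hzero : (∏ c : Fin 5, ∏ a : Fin 5, e (i a) (j c)) = 0 :=
            Finset.prod_eq_zero (Finset.mem_univ c) (Finset.prod_eq_zero (Finset.mem_univ a) hz)
          rw [hzero]; have := hdeg0 i; have := hdeg0 j; linarith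
      have hwi := w5_nonneg hb0 i
      have hwj := w5_nonneg hb0 j
      have hmul := mul_le_mul_of_nonneg_left hprod (mul_nonneg hwi hwj)
      calc w5 b i * ((∏ c, b (j c)) * ∏ c : Fin 5, ∏ a : Fin 5, e (i a) (j c))
          = (w5 b i * w5 b j) * ∏ c : Fin 5, ∏ a : Fin 5, e (i a) (j c) := by unfold w5; ring
        _ ≤ (w5 b i * w5 b j) * (deg i + deg j) := hmul
        _ = _ := by ring
    calc _ ≤ ∑ i : Fin 5 → ι, ∑ j : Fin 5 → ι,
          (w5 b i * deg i * w5 b j + w5 b i * (w5 b j * deg j)) := Finset.sum_le_sum fun i _ => h1 i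
      _ = (∑ i : Fin 5 → ι, w5 b i * deg i) + ∑ j : Fin 5 → ι, w5 b j * deg j := by
          simp only [Finset.sum_add_distrib, ← Finset.mul_sum, ← Finset.sum_mul, sum_w5 hb1]
          ring
      _ ≤ 20 * θ := by linarith
  have hP0 : 0 ≤ ∑ i, ∑ j, b i * b j * e i j := Finset.sum_nonneg fun i _ =>
    Finset.sum_nonneg fun j _ => mul_nonneg (mul_nonneg (hb0 i) (hb0 j)) (he0 i j)
  calc (∑ i, ∑ j, b i * b j * e i j) ^ 25 = ((∑ j, b j * dj j) ^ 5) ^ 5 := by rw [hp]; ring
    _ ≤ (∑ j, b j * dj j ^ 5) ^ 5 := pow_le_pow_left₀ (pow_nonneg (hp ▸ hP0) 5) J1 5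
    _ = (∑ i : Fin 5 → ι, w5 b i * ci i) ^ 5 := by rw [hsw]
    _ ≤ _ := J2
    _ ≤ _ := hfin

end FSH
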