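import Pool.Agent.FSH.Main

/-!
# Double points of an arbitrary flat weighted arrangement
-/

open scoped BigOperators ComplexConjugate
open Matrix

namespace FSH

section

variable {𝕜 : Type*} [RCLike 𝕜] {ι : Type*} [Fintype ι] [DecidableEq ι]
variable {a : ι → ℝ} {v : ι → Fin 3 → 𝕜}

theorem dbl_general (h : Stab a v) (heq : ∑ P ∈ flats v, cw a P = 3) {α : ℝ} (hα : ∀ i, a i ≤ α) :
    pr v a (fun r => r = 2) ^ 2 ≤ 3 * α * (9 + pr v a (fun r => r = 2)) := by
  classical
  obtain ⟨e, he, hdt, h2, h3⟩ := h.tight heq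
  set R : ι → ι → Prop := fun i j => i ≠ j ∧ (flat v i j).card = 2 with hR
  set f : ι → ι → ℝ := fun i j => if R i j then 1 else 0 with hf
  have hf0 : ∀ i j, 0 ≤ f i j := fun i j => by simp only [hf]; split_ifs <;> norm_num
  have hf2 : ∀ i j, f i j * f i j = f i j := fun i j => by
    simp only [hf]; split_ifs <;> norm_num
  have hα0 : 0 ≤ α := by
    obtain ⟨i⟩ := h.nonempty
    exact (h.pos i).le.trans (hα i)
  set S : ℝ := pr v a (fun r => r = 2) with hS
  have hSsum : S = ∑ i, ∑ j, a i * a j * f i j := by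
    rw [hS]
    unfold pr
    rw [← Finset.sum_product', Finset.univ_product_univ, Finset.sum_filter]
    have e1 : (Finset.univ : Finset ι).offDiag ⊆ (Finset.univ : Finset (ι × ι)) :=
      Finset.subset_univ _
    rw [← Finset.sum_subset e1]
    · refine Finset.sum_congr rfl fun q hq => ?_
      rw [Finset.mem_offDiag] at hq
      simp only [hf, hR]
      by_cases hc : (flat v q.1 q.2).card = 2
      · rw [if_pos hc, if_pos ⟨hq.2.2, hc⟩, mul_one]
      · rw [if_neg hc, if_neg (fun h => hc h.2), mul_zero]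
    · intro q _ hq
      have : ¬ R q.1 q.2 := by
        intro hR'
        exact hq (Finset.mem_offDiag.2 ⟨Finset.mem_univ _, Finset.mem_univ _, hR'.1⟩)
      simp only [hf]
      rw [if_neg this, mul_zero]
  have hSsum' : S = ∑ j, a j * ∑ i, a i * f i j := by
    rw [hSsum, Finset.sum_comm]
    refine Finset.sum_congr rfl fun j _ => ?_
    rw [Finset.mul_sum]
    exact Finset.sum_congr rfl fun i _ => by ring
  have hcodeg : ∀ i i', i ≠ i' → ∑ j, a j * (f i j * f i' j) ≤ α := by
    intro i i' hii
    have e2 : (Finset.univ.filter fun j => R i j ∧ R i' j).card ≤ 1 := by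
      rw [Finset.card_le_one]
      intro j hj j' hj'
      rw [Finset.mem_filter] at hj hj'
      by_contra hne
      obtain ⟨k, hk⟩ := h.exists_dt hne
      have hcr : e i ⨯₃ e i' ≠ 0 := by
        intro h0
        obtain ⟨k, hk⟩ := h.exists_dt hii
        apply hk
        rw [← hdt, dt_eq_dot, h0, zero_dotProduct]
      have z : ∀ p q, R p q → ip (e p) (e q) = 0 := by
        intro p q hpq
        have := h2 p q hpq.1 hpq.2
        rw [sq_eq_zero_iff, norm_eq_zero] at this
        exact this
      have hpar := orth_par hcr (z _ _ hj.2.1) (z _ _ hj.2.2) (z _ _ hj'.2.1) (z _ _ hj'.2.2)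
      apply hk
      rw [← hdt, dt_eq_dot, hpar, zero_dotProduct]
    have e1 : ∑ j, a j * (f i j * f i' j) = ∑ j ∈ Finset.univ.filter (fun j => R i j ∧ R i' j), a j := by
      rw [Finset.sum_filter]
      refine Finset.sum_congr rfl fun j _ => ?_
      simp only [hf]
      by_cases ha : R i j <;> by_cases hb : R i' j <;> simp [ha, hb]
    rw [e1]
    calc _ ≤ ∑ j ∈ Finset.univ.filter (fun j => R i j ∧ R i' j), α :=
          Finset.sum_le_sum fun j _ => hα j
      _ = ((Finset.univ.filter (fun j => R i j ∧ R i' j)).card : ℝ) * α := by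
          rw [Finset.sum_const, nsmul_eq_mul]
      _ ≤ 1 * α := by
          refine mul_le_mul_of_nonneg_right ?_ hα0
          exact_mod_cast e2
      _ = α := one_mul α
  have hsq : ∑ j, a j * (∑ i, a i * f i j) ^ 2 ≤ α * (9 + S) := by
    have e1 : ∑ j, a j * (∑ i, a i * f i j) ^ 2 =
        ∑ i, ∑ i', a i * a i' * ∑ j, a j * (f i j * f i' j) := by
      have : ∀ j, a j * (∑ i, a i * f i j) ^ 2 =
          ∑ i, ∑ i', a i * a i' * (a j * (f i j * f i' j)) := by
        intro j
        rw [sq, Finset.sum_mul_sum, Finset.mul_sum]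
        refine Finset.sum_congr rfl fun i _ => ?_
        rw [Finset.mul_sum]
        exact Finset.sum_congr rfl fun i' _ => by ring
      simp only [this]
      rw [Finset.sum_comm]
      refine Finset.sum_congr rfl fun i _ => ?_
      rw [Finset.sum_comm]
      refine Finset.sum_congr rfl fun i' _ => ?_
      rw [Finset.mul_sum]
    rw [e1, sum_sum_eq_diag Finset.univ (fun i i' => a i * a i' * ∑ j, a j * (f i j * f i' j))]
    have e3 : ∑ i, a i * a i * ∑ j, a j * (f i j * f i j) ≤ α * S := by
      rw [hSsum, Finset.mul_sum]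
      refine Finset.sum_le_sum fun i _ => ?_
      simp only [hf2]
      have e4 : 0 ≤ ∑ j, a j * f i j :=
        Finset.sum_nonneg fun j _ => mul_nonneg (h.pos j).le (hf0 i j)
      calc a i * a i * ∑ j, a j * f i j ≤ α * a i * ∑ j, a j * f i j := by
            refine mul_le_mul_of_nonneg_right ?_ e4
            exact mul_le_mul_of_nonneg_right (hα i) (h.pos i).le
        _ = α * ∑ j, a i * a j * f i j := by
            rw [Finset.mul_sum, Finset.mul_sum]
            exact Finset.sum_congr rfl fun j _ => by ring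
    have e5 : ∑ q ∈ (Finset.univ : Finset ι).offDiag,
        a q.1 * a q.2 * ∑ j, a j * (f q.1 j * f q.2 j) ≤ α * 9 := by
      calc _ ≤ ∑ q ∈ (Finset.univ : Finset ι).offDiag, a q.1 * a q.2 * α := by
            refine Finset.sum_le_sum fun q hq => ?_
            exact mul_le_mul_of_nonneg_left (hcodeg q.1 q.2 (Finset.mem_offDiag.1 hq).2.2)
              (mul_nonneg (h.pos _).le (h.pos _).le)
        _ = α * ∑ q ∈ (Finset.univ : Finset ι).offDiag, a q.1 * a q.2 := by
            rw [← Finset.sum_mul]; ring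
        _ ≤ α * 9 := by
            refine mul_le_mul_of_nonneg_left ?_ hα0
            have h9 := sq_sum_eq Finset.univ a
            rw [h.sum] at h9
            have h10 : 0 ≤ ∑ k, a k ^ 2 := Finset.sum_nonneg fun k _ => sq_nonneg _
            linarith
    linarith
  have hCS : S ^ 2 ≤ (∑ j, a j) * ∑ j, a j * (∑ i, a i * f i j) ^ 2 := by
    rw [hSsum']
    refine Finset.sum_sq_le_sum_mul_sum_of_sq_eq_mul Finset.univ (fun j _ => (h.pos j).le)
      (fun j _ => mul_nonneg (h.pos j).le (sq_nonneg _)) (fun j _ => by ring)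
  rw [h.sum] at hCS
  nlinarith [hCS, hsq]

end

open Classical in
theorem double_weights_main {A : Finset (Submodule ℂ (Fin 3 → ℂ))} (hA : IsLines A)
    (a : Submodule ℂ (Fin 3 → ℂ) → ℝ) (ha : FlatWeights A a)
    (h2 : ∀ p ∈ points A, weightAt A a p < 2) (α : ℝ) (hα1 : ∀ H ∈ A, a H < 1)
    (hα : ∀ H ∈ A, a H ≤ α) :
    (∑ q ∈ A.offDiag.filter (fun q => (through A (q.1 ⊓ q.2)).card = 2), a q.1 * a q.2) ^ 2 ≤
      3 * α * (9 + ∑ q ∈ A.offDiag.filter (fun q => (through A (q.1 ⊓ q.2)).card = 2),
        a q.1 * a q.2) := by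
  obtain ⟨v, hPI, hv⟩ := exists_normals hA
  set a' : {H // H ∈ A} → ℝ := fun k => a k.1 with ha'
  have hpos : ∀ k : {H // H ∈ A}, 0 < a' k := fun k => ha.pos k.1 k.2
  have hsum : ∑ k, a' k = 3 := by
    rw [← ha.sum]
    exact Finset.sum_coe_sort A a
  have hst : Stab a' v := by
    refine ⟨hpos, hsum, fun i => hα1 i.1 i.2, fun i j hij => ?_⟩
    have h1 : ∑ k ∈ flat v i j, a' k < 2 := by
      rw [← flt_eq hv hij, sum_flt (A := A) (i.1 ⊓ j.1) a]
      refine h2 _ ?_
      rw [points, Finset.mem_image]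
      exact ⟨(i.1, j.1), Finset.mem_offDiag.2 ⟨i.2, j.2, fun h => hij (Subtype.ext h)⟩, rfl⟩
    have h3 : ∑ k, (if dt (v i) (v j) (v k) = 0 then a' k else 0) =
        ∑ k ∈ flat v i j, a' k := by
      rw [flat, Finset.sum_filter]
    calc _ = ∑ k ∈ flat v i j, a' k := by
          rw [← h3]
      _ < 2 := h1
  have heq : ∑ P ∈ flats v, cw a' P = 3 := by
    rw [sum_flats_eq hv (fun P => cw a' P)]
    rw [← ha.euler]
    exact Finset.sum_congr rfl fun p _ => cw_flt a p
  have hpairs := sum_pairs hv (fun r => r = 2) (fun H K => a H * a K)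
  rw [hpairs]
  exact dbl_general hst heq fun i => hα i.1 i.2

end FSH
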