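import Pool.Agent.FSH.Abs

/-!
# Equal weights: Hirzebruch's property
-/

open scoped BigOperators ComplexConjugate
open Matrix

namespace FSH

variable {𝕜 : Type*} [RCLike 𝕜] {ι : Type*} [Fintype ι] [DecidableEq ι]
variable {v : ι → Fin 3 → 𝕜}

/-- Hirzebruch's property: every line carries exactly `n/3 + 1` multiple points -/
def HZ (v : ι → Fin 3 → 𝕜) : Prop :=
  ∀ k, 3 * ((flats v).filter fun P => k ∈ P).card = Fintype.card ι + 3

lemma two_le_card (hPI : PI v) {P : Finset ι} (hP : P ∈ flats v) : 2 ≤ P.card := by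
  obtain ⟨i, j, hij, rfl⟩ := mem_flats.1 hP
  calc 2 = ({i, j} : Finset ι).card := (Finset.card_pair hij).symm
    _ ≤ _ := Finset.card_le_card (by
      intro x hx
      simp only [Finset.mem_insert, Finset.mem_singleton] at hx
      rcases hx with rfl | rfl
      · exact left_mem_flat v _ _
      · exact right_mem_flat v _ _)

lemma sum_card_flats (hH : HZ v) :
    3 * ∑ P ∈ flats v, (P.card : ℝ) = (Fintype.card ι : ℝ) * (Fintype.card ι + 3) := by
  have h1 : ∑ P ∈ flats v, (P.card : ℝ) = ∑ k : ι, (((flats v).filter fun P => k ∈ P).card : ℝ) := by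
    have e1 : ∀ P : Finset ι, (P.card : ℝ) = ∑ k : ι, (if k ∈ P then (1:ℝ) else 0) := by
      intro P; simp
    have e2 : ∀ k : ι, (((flats v).filter fun P => k ∈ P).card : ℝ) =
        ∑ P ∈ flats v, (if k ∈ P then (1:ℝ) else 0) := by
      intro k; simp
    simp only [e1, e2]
    exact Finset.sum_comm
  rw [h1, Finset.mul_sum]
  have h2 : ∀ k : ι, (3:ℝ) * (((flats v).filter fun P => k ∈ P).card : ℝ) = Fintype.card ι + 3 := by
    intro k
    have := hH k
    exact_mod_cast this
  simp only [h2]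
  rw [Finset.sum_const, Finset.card_univ, nsmul_eq_mul]

lemma card_offDiag_real (P : Finset ι) : (P.offDiag.card : ℝ) = (P.card : ℝ) * (P.card - 1) := by
  rw [Finset.offDiag_card, Nat.cast_sub (Nat.le_mul_self _)]
  push_cast; ring

lemma sum_card_sq (hPI : PI v) (hH : HZ v) :
    3 * ∑ P ∈ flats v, (P.card : ℝ) ^ 2 = 4 * (Fintype.card ι : ℝ) ^ 2 := by
  have h1 := sum_card_flats hH
  have h2 := hPI.sum_flats (fun _ => (1:ℝ))
  simp only [Finset.sum_const, nsmul_eq_mul, mul_one] at h2
  simp only [card_offDiag_real] at h2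
  rw [Finset.card_univ] at h2
  have h3 : ∑ P ∈ flats v, (P.card : ℝ) * ((P.card : ℝ) - 1) =
      ∑ P ∈ flats v, (P.card : ℝ) ^ 2 - ∑ P ∈ flats v, (P.card : ℝ) := by
    rw [← Finset.sum_sub_distrib]
    exact Finset.sum_congr rfl fun P _ => by ring
  rw [h3] at h2
  nlinarith [h1, h2]

lemma sum_cw (hPI : PI v) (hH : HZ v) (hn : 0 < Fintype.card ι) :
    ∑ P ∈ flats v, cw (fun _ => 3 / (Fintype.card ι : ℝ)) P = 3 := by
  have h1 := sum_card_sq hPI hH
  have hn' : (0:ℝ) < Fintype.card ι := by exact_mod_cast hn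
  have h2 : ∀ P ∈ flats v, cw (fun _ => 3 / (Fintype.card ι : ℝ)) P =
      (9 / (4 * (Fintype.card ι : ℝ) ^ 2)) * (P.card : ℝ) ^ 2 := by
    intro P _
    unfold cw
    by_cases hc : P.card = 2
    · rw [if_pos hc, Finset.sum_const, nsmul_eq_mul, card_offDiag_real, hc]
      field_simp
      norm_num
    · rw [if_neg hc, Finset.sum_const, nsmul_eq_mul]
      field_simp
      ring
  rw [Finset.sum_congr rfl h2, ← Finset.mul_sum]
  field_simp
  linarith

lemma exists_not_mem (hPI : PI v) (hH : HZ v) {i j : ι} (hij : i ≠ j) : ∃ k, k ∉ flat v i j := by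
  by_contra hcon
  push Not at hcon
  have hsub : (flats v).filter (fun P => i ∈ P) ⊆ {flat v i j} := by
    intro P hP
    rw [Finset.mem_filter] at hP
    obtain ⟨k, l, hkl, rfl⟩ := mem_flats.1 hP.1
    rw [Finset.mem_singleton]
    exact hPI.flat_eq hij hkl (hcon k) (hcon l)
  have h1 := Finset.card_le_card hsub
  rw [Finset.card_singleton] at h1
  have h2 := hH i
  have h3 : 0 < Fintype.card ι := Fintype.card_pos_iff.2 ⟨i⟩
  omega

lemma card_flat_le (hPI : PI v) (hH : HZ v) {i j : ι} (hij : i ≠ j) :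
    3 * (flat v i j).card ≤ Fintype.card ι + 3 := by
  obtain ⟨k, hk⟩ := exists_not_mem hPI hH hij
  rw [← hH k]
  refine Nat.mul_le_mul_left 3 ?_
  refine Finset.card_le_card_of_injOn (fun l => flat v k l) ?_ ?_
  · intro l hl
    simp only [Finset.mem_coe] at hl
    simp only [Finset.coe_filter, Set.mem_ofPred_eq]
    refine ⟨mem_flats.2 ⟨k, l, ?_, rfl⟩, left_mem_flat v k l⟩
    rintro rfl
    exact hk hl
  · intro l hl l' hl' hll
    simp only [Finset.mem_coe] at hl hl'
    by_contra hne
    have hkl : k ≠ l := by rintro rfl; exact hk hl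
    simp only at hll
    have h1 : l' ∈ flat v k l := by rw [hll]; exact right_mem_flat v k l'
    have h2 := hPI.flat_eq hkl hne (right_mem_flat v k l) h1
    have h3 := hPI.flat_eq hij hne hl hl'
    apply hk
    rw [← h3, h2]
    exact left_mem_flat v k l

lemma stab_of_HZ (hPI : PI v) (hH : HZ v) (hn : 3 < Fintype.card ι) :
    Stab (fun _ => 3 / (Fintype.card ι : ℝ)) v := by
  have hn' : (3:ℝ) < Fintype.card ι := by exact_mod_cast hn
  refine ⟨fun i => by positivity, ?_, fun i => ?_, fun i j hij => ?_⟩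
  · rw [Finset.sum_const, Finset.card_univ, nsmul_eq_mul]
    field_simp
  · rw [div_lt_one (by linarith)]; exact hn'
  · have h1 := card_flat_le hPI hH hij
    have h2 : (3:ℝ) * (flat v i j).card ≤ Fintype.card ι + 3 := by exact_mod_cast h1
    have h3 : ∑ k, (if dt (v i) (v j) (v k) = 0 then 3 / (Fintype.card ι : ℝ) else 0) =
        ((flat v i j).card : ℝ) * (3 / (Fintype.card ι : ℝ)) := by
      classical
      have h4 : flat v i j = Finset.univ.filter fun k => dt (v i) (v j) (v k) = 0 := by
        ext k; rw [mem_flat]; simp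
      rw [h4, ← Finset.sum_filter, Finset.sum_const, nsmul_eq_mul]
    have h5 : ((flat v i j).card : ℝ) * (3 / (Fintype.card ι : ℝ)) < 2 := by
      rw [mul_div_assoc', div_lt_iff₀ (by linarith)]
      linarith
    calc _ = ((flat v i j).card : ℝ) * (3 / (Fintype.card ι : ℝ)) := by
          rw [← h3]
      _ < 2 := h5

/-- the number of ordered pairs whose flat satisfies `p` -/
noncomputable def np (v : ι → Fin 3 → 𝕜) (p : ℕ → Prop) [DecidablePred p] : ℕ :=
  ((Finset.univ : Finset ι).offDiag.filter (fun q => p (flat v q.1 q.2).card)).card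

lemma pr_eq (p : ℕ → Prop) [DecidablePred p] :
    pr v (fun _ => 3 / (Fintype.card ι : ℝ)) p = 9 / (Fintype.card ι : ℝ) ^ 2 * np v p := by
  unfold pr np
  rw [Finset.sum_const, nsmul_eq_mul]
  ring

lemma np_le_sq (p : ℕ → Prop) [DecidablePred p] : (np v p : ℝ) ≤ (Fintype.card ι : ℝ) ^ 2 -
    Fintype.card ι := by
  have h1 : np v p ≤ (Finset.univ : Finset ι).offDiag.card := Finset.card_filter_le _ _
  have h2 : (np v p : ℝ) ≤ ((Finset.univ : Finset ι).offDiag.card : ℝ) := by exact_mod_cast h1
  rw [card_offDiag_real, Finset.card_univ] at h2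
  linarith

/-- non-quadruple pairs -/
theorem np_ne_four (hPI : PI v) (hH : HZ v) :
    (np v (fun r => r ≠ 4) : ℝ) ≤ 9 * np v (fun r => r = 2) + 3 * np v (fun r => r = 3) := by
  have h1 := sum_card_flats hH
  have h2 := hPI.sum_flats (fun q => 1 / (((flat v q.1 q.2).card : ℝ) - 1))
  have h3 : ∀ P ∈ flats v, ∑ q ∈ P.offDiag, 1 / (((flat v q.1 q.2).card : ℝ) - 1) = (P.card : ℝ) := by
    intro P hP
    have hc := two_le_card hPI hP
    have hc' : (2:ℝ) ≤ P.card := by exact_mod_cast hc
    have e1 : ∀ q ∈ P.offDiag, 1 / (((flat v q.1 q.2).card : ℝ) - 1) = 1 / ((P.card : ℝ) - 1) := by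
      intro q hq
      rw [Finset.mem_offDiag] at hq
      rw [← hPI.flat_unique hP hq.1 hq.2.1 hq.2.2]
    rw [Finset.sum_congr rfl e1, Finset.sum_const, nsmul_eq_mul, card_offDiag_real]
    have : (P.card : ℝ) - 1 ≠ 0 := by intro h0; linarith
    field_simp
  rw [Finset.sum_congr rfl h3] at h2
  have h4 : ∑ q ∈ (Finset.univ : Finset ι).offDiag, (1:ℝ) = (Fintype.card ι : ℝ) *
      (Fintype.card ι - 1) := by
    rw [Finset.sum_const, nsmul_eq_mul, mul_one, card_offDiag_real, Finset.card_univ]
  have hnp : ∀ (p : ℕ → Prop) [DecidablePred p], (np v p : ℝ) =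
      ∑ q ∈ (Finset.univ : Finset ι).offDiag, (if p (flat v q.1 q.2).card then (1:ℝ) else 0) := by
    intro p _
    unfold np
    rw [Finset.sum_ite, Finset.sum_const_zero, add_zero, Finset.sum_const, nsmul_eq_mul, mul_one]
  rw [hnp, hnp, hnp]
  have hpt : ∀ q ∈ (Finset.univ : Finset ι).offDiag,
      (if (flat v q.1 q.2).card ≠ 4 then (1:ℝ) else 0) ≤
      9 * (if (flat v q.1 q.2).card = 2 then (1:ℝ) else 0) +
      3 * (if (flat v q.1 q.2).card = 3 then (1:ℝ) else 0) -
      (12 * (1 / (((flat v q.1 q.2).card : ℝ) - 1)) - 4 * 1) := by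
    intro q hq
    rw [Finset.mem_offDiag] at hq
    have hc : 2 ≤ (flat v q.1 q.2).card := two_le_card hPI (mem_flats.2 ⟨q.1, q.2, hq.2.2, rfl⟩)
    generalize (flat v q.1 q.2).card = r at hc
    rcases lt_or_ge r 5 with h5 | h5
    · interval_cases r <;> norm_num
    · have hr : (5:ℝ) ≤ r := by exact_mod_cast h5
      rw [if_pos (by omega), if_neg (by omega), if_neg (by omega)]
      have : 1 / ((r:ℝ) - 1) ≤ 1 / 4 := one_div_le_one_div_of_le (by norm_num) (by linarith)
      linarith
  have hsum := Finset.sum_le_sum hpt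
  rw [Finset.sum_sub_distrib, Finset.sum_sub_distrib, Finset.sum_add_distrib, ← Finset.mul_sum,
    ← Finset.mul_sum, ← Finset.mul_sum, ← Finset.mul_sum, ← h2, h4] at hsum
  have hn0 : (0:ℝ) ≤ Fintype.card ι := Nat.cast_nonneg _
  nlinarith [hsum, h1, hn0]

lemma ip_eq_conj_dot (x y : Fin 3 → 𝕜) : ip x y = (fun a => conj (x a)) ⬝ᵥ y := rfl

lemma cross_conj (x y : Fin 3 → 𝕜) : (fun a => conj (x a)) ⨯₃ (fun a => conj (y a)) =
    fun a => conj ((x ⨯₃ y) a) := by
  rw [cross_apply, cross_apply]
  ext a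
  fin_cases a <;> simp

/-- two vectors orthogonal to the same two independent vectors are parallel -/
lemma orth_par {x x' y y' : Fin 3 → 𝕜} (hx : x ⨯₃ x' ≠ 0) (h1 : ip x y = 0) (h2 : ip x' y = 0)
    (h3 : ip x y' = 0) (h4 : ip x' y' = 0) : y ⨯₃ y' = 0 := by
  set m : Fin 3 → 𝕜 := (fun a => conj (x a)) ⨯₃ (fun a => conj (x' a)) with hm
  have hm0 : m ≠ 0 := by
    intro h0
    apply hx
    rw [hm, cross_conj] at h0
    funext a
    have := congrFun h0 a
    simpa using this
  rw [ip_eq_conj_dot, dotProduct_comm] at h1 h2 h3 h4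
  have p1 := cross_par h1 h2
  have p2 := cross_par h3 h4
  obtain ⟨c, hc⟩ : ∃ c, m c ≠ 0 := by
    by_contra hcon
    push Not at hcon
    exact hm0 (funext hcon)
  have key : ∀ a b, y a * y' b = y b * y' a := by
    intro a b
    have e1 := p1 a c
    have e2 := p2 b c
    have e3 := p1 b c
    have e4 := p2 a c
    rw [← hm] at e1 e2 e3 e4
    have : m c * m c * (y a * y' b - y b * y' a) = 0 := by
      linear_combination (m c * y' b) * e1 + (y c * m a) * e2 - (m c * y' a) * e3 - (y c * m b) * e4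
    have h5 := (mul_eq_zero.1 this).resolve_left (mul_ne_zero hc hc)
    exact sub_eq_zero.1 h5
  rw [cross_apply]
  have k1 := key 1 2
  have k2 := key 2 0
  have k3 := key 0 1
  ext a
  fin_cases a
  · simp; linear_combination k1
  · simp; linear_combination k2
  · simp; linear_combination k3

/-- **Few double points.** -/
theorem np_two (hPI : PI v) (hH : HZ v) : (np v (fun r => r = 2) : ℝ) ≤
    (Fintype.card ι : ℝ) * (1 + Real.sqrt (4 * Fintype.card ι - 3)) / 2 := by
  classical
  set n : ℝ := (Fintype.card ι : ℝ) with hn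
  rcases le_or_gt (Fintype.card ι) 3 with hle | hgt
  · have h1 := np_le_sq (v := v) (fun r => r = 2)
    refine h1.trans ?_
    rw [← hn]
    have hn3 : n ≤ 3 := by rw [hn]; exact_mod_cast hle
    rcases Nat.eq_zero_or_pos (Fintype.card ι) with h0 | hpos
    · have : n = 0 := by rw [hn, h0]; simp
      rw [this]; norm_num
    · have hn1 : (1:ℝ) ≤ n := by rw [hn]; exact_mod_cast hpos
      have hs : 2 * n - 3 ≤ Real.sqrt (4 * n - 3) := by
        apply Real.le_sqrt_of_sq_le
        nlinarith
      nlinarith [mul_le_mul_of_nonneg_left hs (by linarith : (0:ℝ) ≤ n)]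
  · have hst := stab_of_HZ hPI hH hgt
    have hcw := sum_cw hPI hH (by omega)
    obtain ⟨e, he, hdt, h2, h3⟩ := hst.tight hcw
    set R : ι → ι → Prop := fun i j => i ≠ j ∧ (flat v i j).card = 2 with hR
    set f : ι → ι → ℝ := fun i j => if R i j then 1 else 0 with hf
    have hf0 : ∀ i j, 0 ≤ f i j := fun i j => by simp only [hf]; split_ifs <;> norm_num
    have hf2 : ∀ i j, f i j * f i j = f i j := fun i j => by
      simp only [hf]; split_ifs <;> norm_num
    have hN : (np v (fun r => r = 2) : ℝ) = ∑ j, ∑ i, f i j := by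
      rw [Finset.sum_comm]
      unfold np
      rw [← Finset.sum_product', Finset.univ_product_univ]
      simp only [hf]
      rw [Finset.sum_ite, Finset.sum_const_zero, add_zero, Finset.sum_const, nsmul_eq_mul, mul_one]
      congr 2
      ext q
      simp [hR, Finset.mem_offDiag]
    set N : ℝ := ∑ j, ∑ i, f i j with hNdef
    have hcodeg : ∀ i i', i ≠ i' → ∑ j, f i j * f i' j ≤ 1 := by
      intro i i' hii
      have e1 : ∑ j, f i j * f i' j = ((Finset.univ.filter fun j => R i j ∧ R i' j).card : ℝ) := by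
        rw [Finset.card_filter]
        push_cast
        refine Finset.sum_congr rfl fun j _ => ?_
        simp only [hf]
        by_cases ha : R i j <;> by_cases hb : R i' j <;> simp [ha, hb]
      rw [e1]
      have e2 : (Finset.univ.filter fun j => R i j ∧ R i' j).card ≤ 1 := by
        rw [Finset.card_le_one]
        intro j hj j' hj'
        rw [Finset.mem_filter] at hj hj'
        by_contra hne
        obtain ⟨k, hk⟩ := hst.exists_dt hne
        have hcr : e i ⨯₃ e i' ≠ 0 := by
          intro h0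
          obtain ⟨k, hk⟩ := hst.exists_dt hii
          apply hk
          rw [← hdt, dt_eq_dot, h0, zero_dotProduct]
        have z : ∀ p q, R p q → ip (e p) (e q) = 0 := by
          intro p q hpq
          have := h2 p q hpq.1 hpq.2
          rw [sq_eq_zero_iff, norm_eq_zero] at this
          exact this
        have hpar := orth_par hcr (z _ _ hj.2.1) (z _ _ hj.2.2) (z _ _ hj'.2.1) (z _ _ hj'.2.2)
        apply hk
        rw [← hdt, dt_eq_dot, hpar, zero_dotProduct]
      exact_mod_cast e2
    have hsq : ∑ j, (∑ i, f i j) ^ 2 ≤ N + n * (n - 1) := by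
      have e1 : ∑ j, (∑ i, f i j) ^ 2 = ∑ i, ∑ i', ∑ j, f i j * f i' j := by
        have : ∀ j, (∑ i, f i j) ^ 2 = ∑ i, ∑ i', f i j * f i' j := by
          intro j; rw [sq, Finset.sum_mul_sum]
        simp only [this]
        rw [Finset.sum_comm]
        refine Finset.sum_congr rfl fun i _ => ?_
        rw [Finset.sum_comm]
      rw [e1, sum_sum_eq_diag Finset.univ (fun i i' => ∑ j, f i j * f i' j)]
      refine add_le_add ?_ ?_
      · simp only [hf2]
        rw [hNdef, Finset.sum_comm]
      · calc _ ≤ ∑ q ∈ (Finset.univ : Finset ι).offDiag, (1:ℝ) :=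
              Finset.sum_le_sum fun q hq => hcodeg q.1 q.2 (Finset.mem_offDiag.1 hq).2.2
          _ = _ := by rw [Finset.sum_const, nsmul_eq_mul, mul_one, card_offDiag_real,
              Finset.card_univ]
    have hCS : N ^ 2 ≤ n * ∑ j, (∑ i, f i j) ^ 2 := by
      have := sq_sum_le_card_mul_sum_sq (s := (Finset.univ : Finset ι)) (f := fun j => ∑ i, f i j)
      rw [Finset.card_univ] at this
      exact this
    have hn0 : 0 ≤ n := Nat.cast_nonneg _
    have hfin : N ^ 2 ≤ n * (N + n * (n - 1)) := hCS.trans (mul_le_mul_of_nonneg_left hsq hn0)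
    have hn3 : (3:ℝ) < n := by rw [hn]; exact_mod_cast hgt
    have h5 : (2 * N - n) ^ 2 ≤ n ^ 2 * (4 * n - 3) := by nlinarith
    have h6 : 2 * N - n ≤ Real.sqrt (n ^ 2 * (4 * n - 3)) := Real.le_sqrt_of_sq_le h5
    rw [Real.sqrt_mul (sq_nonneg n), Real.sqrt_sq hn0] at h6
    rw [hN]
    linarith

/-- triple points are rare (equal weights) -/
theorem tri_equal {c : ℝ} (h : Stab (fun _ => 3 / c) v)
    (heq : ∑ P ∈ flats v, cw (fun _ => 3 / c) P = 3) (hc : 3 < c) {η : ℝ}
    (hη : ∀ i j, i ≠ j → ∑ k ∈ flat v i j, (3 / c) ≤ η) :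
    pr v (fun _ => 3 / c) (fun r => r = 3) ≤ 9 * (40 * η / 3) ^ ((1:ℝ) / 25) := by
  classical
  obtain ⟨e, he, hdt, h2, h3⟩ := h.tight heq
  refine le_trans (offDiag_sum_le h (fun i j => i ≠ j ∧ (flat v i j).card = 3) _ ?_)
    (density h he hdt hη (c := 1 / 4) (by norm_num) (fun i j => i ≠ j ∧ (flat v i j).card = 3)
      fun i j hij => ?_)
  · intro q hq
    rw [Finset.mem_filter, Finset.mem_offDiag] at hq
    exact ⟨hq.1.2.2, hq.2⟩
  · obtain ⟨hne, hcard⟩ := hij
    have h1 : ((flat v i j).erase i).card = 2 := by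
      rw [Finset.card_erase_of_mem (left_mem_flat v _ _), hcard]
    have h2' : (((flat v i j).erase i).erase j).card = 1 := by
      rw [Finset.card_erase_of_mem (Finset.mem_erase.2 ⟨hne.symm, right_mem_flat v _ _⟩), h1]
    obtain ⟨k, hk⟩ := Finset.card_eq_one.1 h2'
    have hkm : k ∈ ((flat v i j).erase i).erase j := by rw [hk]; simp
    rw [Finset.mem_erase, Finset.mem_erase] at hkm
    have hFl : flat v i j = {i, j, k} := by
      symm
      refine Finset.eq_of_subset_of_card_le ?_ ?_
      · intro x hx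
        simp only [Finset.mem_insert, Finset.mem_singleton] at hx
        rcases hx with rfl | rfl | rfl
        · exact left_mem_flat v _ _
        · exact right_mem_flat v _ _
        · exact hkm.2.2
      · rw [hcard, Finset.card_insert_of_notMem, Finset.card_pair hkm.1.symm]
        simp [hne, hkm.2.1.symm]
    have hsumFl : ∀ f : ι → ℝ, ∑ x ∈ flat v i j, f x = f i + f j + f k := by
      intro f
      rw [hFl, Finset.sum_insert (by simp [hne, hkm.2.1.symm]), Finset.sum_pair hkm.1.symm]
      ring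
    have htr := triple_angle (a := fun _ => 3 / c) he (i := i) (j := j) (k := k) h.pos (by
      intro l hl
      have := h3 i j hne (by rw [hcard]; norm_num) l (by
        rw [hFl]; simp only [Finset.mem_insert, Finset.mem_singleton]; exact hl)
      rw [hsumFl, hsumFl] at this
      exact this)
    rw [htr]
    have hc0 : c ≠ 0 := by linarith
    field_simp
    ring

/-- **Almost all pairs of lines meet in quadruple points.** -/
theorem np_main (hPI : PI v) (hH : HZ v) {η : ℝ} (hη0 : 0 ≤ η)
    (hη : ∀ i j, i ≠ j → ((flat v i j).card : ℝ) ≤ η * Fintype.card ι) :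
    (np v (fun r => r ≠ 4) : ℝ) ≤ 12 * (40 * η) ^ ((1:ℝ) / 25) * (Fintype.card ι : ℝ) ^ 2 := by
  classical
  set n : ℝ := (Fintype.card ι : ℝ) with hn
  have hn0 : 0 ≤ n := Nat.cast_nonneg _
  rcases le_or_gt (1 / 40) η with hbig | hsmall
  · have h1 := np_le_sq (v := v) (fun r => r ≠ 4)
    rw [← hn] at h1
    have h2 : (1:ℝ) ≤ (40 * η) ^ ((1:ℝ) / 25) := Real.one_le_rpow (by linarith) (by norm_num)
    nlinarith [mul_le_mul_of_nonneg_right h2 (sq_nonneg n)]
  · rcases le_or_gt (Fintype.card ι) 3 with hle | hgt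
    · -- no pairs at all
      have h0 : np v (fun r => r ≠ 4) = 0 := by
        unfold np
        rw [Finset.card_eq_zero]
        refine Finset.filter_eq_empty_iff.2 fun q hq _ => ?_
        rw [Finset.mem_offDiag] at hq
        have h1 := hη q.1 q.2 hq.2.2
        have h2 : (2:ℝ) ≤ (flat v q.1 q.2).card := by
          exact_mod_cast two_le_card hPI (mem_flats.2 ⟨q.1, q.2, hq.2.2, rfl⟩)
        have h3 : (Fintype.card ι : ℝ) ≤ 3 := by exact_mod_cast hle
        nlinarith
      rw [h0]
      push_cast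
      positivity
    · have hst := stab_of_HZ hPI hH hgt
      have hcw := sum_cw hPI hH (by omega)
      have hn3 : (3:ℝ) < n := by rw [hn]; exact_mod_cast hgt
      have hη' : ∀ i j, i ≠ j → ∑ k ∈ flat v i j, (3 / (Fintype.card ι : ℝ)) ≤ 3 * η := by
        intro i j hij
        rw [Finset.sum_const, nsmul_eq_mul, mul_div_assoc', div_le_iff₀ (by linarith)]
        have := hη i j hij
        linarith
      have h2 := dbl_le hst hcw hη'
      have h3 := tri_equal hst hcw hn3 hη'
      rw [pr_eq, ← hn] at h2 h3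
      have harg : 40 * (3 * η) / 3 = 40 * η := by ring
      rw [harg] at h2 h3
      set Q := (40 * η) ^ ((1:ℝ) / 25) with hQ
      have hQ0 : 0 ≤ Q := by positivity
      have hn2 : 0 < n ^ 2 := by positivity
      have e2 : (np v (fun r => r = 2) : ℝ) ≤ Q * n ^ 2 := by
        rw [div_mul_eq_mul_div, div_le_iff₀ hn2] at h2
        linarith
      have e3 : (np v (fun r => r = 3) : ℝ) ≤ Q * n ^ 2 := by
        rw [div_mul_eq_mul_div, div_le_iff₀ hn2] at h3
        linarith
      have h4 := np_ne_four hPI hH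
      nlinarith
end FSH
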