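import Pool.Agent.FSH.KN2

/-!
# Flats of an arrangement (the multiple points) and sums over them
-/

open scoped BigOperators ComplexConjugate
open Matrix

namespace FSH

variable {𝕜 : Type*} [RCLike 𝕜] {ι : Type*} [Fintype ι] [DecidableEq ι]

open Classical in
/-- all vectors in the plane spanned by `v i, v j` -/
noncomputable def flat (v : ι → Fin 3 → 𝕜) (i j : ι) : Finset ι :=
  Finset.univ.filter fun k => dt (v i) (v j) (v k) = 0

/-- any two of the vectors are linearly independent -/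
def PI (v : ι → Fin 3 → 𝕜) : Prop := ∀ i j, i ≠ j → v i ⨯₃ v j ≠ 0

omit [DecidableEq ι] in
lemma mem_flat {v : ι → Fin 3 → 𝕜} {i j k : ι} : k ∈ flat v i j ↔ dt (v i) (v j) (v k) = 0 := by
  simp [flat]

lemma dt_rot (x y z : Fin 3 → 𝕜) : dt x y z = dt z x y := by
  rw [dt_eq, dt_eq]; ring

lemma dt_swap12 (x y z : Fin 3 → 𝕜) : dt y x z = -dt x y z := by
  rw [dt_eq, dt_eq]; ring

lemma dt_swap23 (x y z : Fin 3 → 𝕜) : dt x z y = -dt x y z := by
  rw [dt_eq, dt_eq]; ring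

omit [DecidableEq ι] in
lemma left_mem_flat (v : ι → Fin 3 → 𝕜) (i j : ι) : i ∈ flat v i j := by
  rw [mem_flat]; exact dt_self_mid _ _

omit [DecidableEq ι] in
lemma right_mem_flat (v : ι → Fin 3 → 𝕜) (i j : ι) : j ∈ flat v i j := by
  rw [mem_flat, dt_rot]; exact dt_self_mid _ _

lemma dt_eq_dot (x y z : Fin 3 → 𝕜) : dt x y z = (x ⨯₃ y) ⬝ᵥ z := by
  rw [cross_dot, dt_rot]

lemma par_dot {n m x : Fin 3 → 𝕜} (hn : n ≠ 0) (hpar : ∀ a b, n a * m b = n b * m a)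
    (hx : n ⬝ᵥ x = 0) : m ⬝ᵥ x = 0 := by
  obtain ⟨a, ha⟩ : ∃ a, n a ≠ 0 := by
    by_contra hcon
    push Not at hcon
    exact hn (funext hcon)
  have h1 : n a * (m ⬝ᵥ x) = m a * (n ⬝ᵥ x) := by
    simp only [dotProduct, Finset.mul_sum]
    refine Finset.sum_congr rfl fun b _ => ?_
    have := hpar a b
    linear_combination (x b) * this
  rw [hx, mul_zero] at h1
  exact (mul_eq_zero.1 h1).resolve_left ha

lemma cross_par {n x y : Fin 3 → 𝕜} (hx : n ⬝ᵥ x = 0) (hy : n ⬝ᵥ y = 0) (a b : Fin 3) :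
    n a * (x ⨯₃ y) b = n b * (x ⨯₃ y) a := by
  simp only [dotProduct, Fin.sum_univ_three] at hx hy
  rw [cross_apply]
  fin_cases a <;> fin_cases b <;> simp <;>
    first
      | ring1
      | linear_combination (x 2) * hy - (y 2) * hx
      | linear_combination (y 2) * hx - (x 2) * hy
      | linear_combination (x 1) * hy - (y 1) * hx
      | linear_combination (y 1) * hx - (x 1) * hy
      | linear_combination (x 0) * hy - (y 0) * hx
      | linear_combination (y 0) * hx - (x 0) * hy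

omit [DecidableEq ι] in
lemma PI.cross_ne {v : ι → Fin 3 → 𝕜} (h : PI v) {i j : ι} (hij : i ≠ j) : v i ⨯₃ v j ≠ 0 := by
  exact h i j hij

omit [DecidableEq ι] in
lemma PI.flat_eq {v : ι → Fin 3 → 𝕜} (h : PI v) {i j k l : ι} (hij : i ≠ j) (hkl : k ≠ l)
    (hk : k ∈ flat v i j) (hl : l ∈ flat v i j) : flat v k l = flat v i j := by
  rw [mem_flat, dt_eq_dot] at hk hl
  have hpar := cross_par hk hl
  ext x
  rw [mem_flat, mem_flat, dt_eq_dot, dt_eq_dot]
  constructor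
  · intro hx
    exact par_dot (h.cross_ne hkl) (fun a b => by
      have := hpar b a
      linear_combination this) hx
  · intro hx
    exact par_dot (h.cross_ne hij) hpar hx

/-- the set of all flats -/
noncomputable def flats (v : ι → Fin 3 → 𝕜) : Finset (Finset ι) :=
  (Finset.univ : Finset ι).offDiag.image fun q => flat v q.1 q.2

lemma mem_flats {v : ι → Fin 3 → 𝕜} {P : Finset ι} :
    P ∈ flats v ↔ ∃ i j, i ≠ j ∧ flat v i j = P := by
  simp only [flats, Finset.mem_image, Finset.mem_offDiag, Finset.mem_univ, true_and, Prod.exists]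

lemma PI.flat_unique {v : ι → Fin 3 → 𝕜} (h : PI v) {P : Finset ι} (hP : P ∈ flats v) {k l : ι}
    (hk : k ∈ P) (hl : l ∈ P) (hkl : k ≠ l) : P = flat v k l := by
  obtain ⟨i, j, hij, rfl⟩ := mem_flats.1 hP
  exact (h.flat_eq hij hkl hk hl).symm

lemma PI.sum_flats {v : ι → Fin 3 → 𝕜} (h : PI v) (f : ι × ι → ℝ) :
    ∑ P ∈ flats v, ∑ q ∈ P.offDiag, f q = ∑ q ∈ (Finset.univ : Finset ι).offDiag, f q := by
  rw [← Finset.sum_biUnion]
  · congr 1
    ext q
    simp only [Finset.mem_biUnion, Finset.mem_offDiag, Finset.mem_univ, true_and]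
    constructor
    · rintro ⟨P, _, _, _, hne⟩; exact hne
    · intro hne
      exact ⟨flat v q.1 q.2, mem_flats.2 ⟨q.1, q.2, hne, rfl⟩, left_mem_flat v _ _,
        right_mem_flat v _ _, hne⟩
  · intro P hP Q hQ hPQ
    rw [Function.onFun, Finset.disjoint_left]
    intro q hqP hqQ
    rw [Finset.mem_offDiag] at hqP hqQ
    apply hPQ
    rw [h.flat_unique hP hqP.1 hqP.2.1 hqP.2.2, h.flat_unique hQ hqQ.1 hqQ.2.1 hqQ.2.2]

omit [DecidableEq ι] in
lemma exists_normal {x y : Fin 3 → 𝕜} (h : x ⨯₃ y ≠ 0) :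
    ∃ w : Fin 3 → 𝕜, nsq w = 1 ∧ ∀ z, dt x y z = 0 → ip w z = 0 := by
  set n : Fin 3 → 𝕜 := x ⨯₃ y with hn
  set c : ℝ := (Real.sqrt (nsq n))⁻¹ with hc
  have hnp := nsq_pos h
  have hcp : 0 < c := inv_pos.2 (Real.sqrt_pos.2 hnp)
  have hconj : nsq (fun a => conj (n a)) = nsq n := by
    unfold nsq; simp
  refine ⟨fun a => (c : 𝕜) * conj (n a), ?_, ?_⟩
  · have h1 : (fun a => (c : 𝕜) * conj (n a)) = (c : 𝕜) • (fun a => conj (n a)) := by
      ext a; simp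
    rw [h1, nsq_smul, hconj, RCLike.norm_ofReal, abs_of_pos hcp, hc, inv_pow, Real.sq_sqrt hnp.le]
    exact inv_mul_cancel₀ hnp.ne'
  · intro z hz
    rw [dt_eq_dot, ← hn] at hz
    have h1 : ip (fun a => (c : 𝕜) * conj (n a)) z = (c : 𝕜) * (n ⬝ᵥ z) := by
      simp only [ip, dotProduct, Finset.mul_sum, map_mul, RCLike.conj_conj, RCLike.conj_ofReal]
      exact Finset.sum_congr rfl fun a _ => by ring
    rw [h1, hz, mul_zero]

/-- the square of the distance of the frame operator of a plane from a scalar -/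
lemma tight_core (P : Finset ι) (a : ι → ℝ) (e : ι → Fin 3 → 𝕜) (he : ∀ i, nsq (e i) = 1)
    (w : Fin 3 → 𝕜) (hw : nsq w = 1) (hP : ∀ k ∈ P, ip w (e k) = 0) :
    (∑ k ∈ P, a k) ^ 2 / 2 ≤ ∑ k ∈ P, ∑ l ∈ P, a k * a l * ‖ip (e k) (e l)‖ ^ 2 ∧
    (∑ k ∈ P, ∑ l ∈ P, a k * a l * ‖ip (e k) (e l)‖ ^ 2 = (∑ k ∈ P, a k) ^ 2 / 2 →
      ∀ l ∈ P, ∑ k ∈ P, a k * ‖ip (e k) (e l)‖ ^ 2 = (∑ k ∈ P, a k) / 2) := by
  set B : ℝ := ∑ k ∈ P, a k with hB
  set Q : ℝ := ∑ k ∈ P, ∑ l ∈ P, a k * a l * ‖ip (e k) (e l)‖ ^ 2 with hQ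
  set S : EuclideanSpace 𝕜 (Fin 3 × Fin 3) := ∑ k ∈ P, ((a k : ℝ) : 𝕜) • tn (e k) with hS
  set T : EuclideanSpace 𝕜 (Fin 3 × Fin 3) := jn - tn w with hT
  have hwe : ∀ k ∈ P, inner 𝕜 (tn w) (tn (e k)) = 0 := by
    intro k hk
    rw [inner_tn, hP k hk]; simp
  have hSS : inner 𝕜 S S = ((Q : ℝ) : 𝕜) := by
    rw [hS, sum_inner]
    simp only [inner_sum, inner_smul_left, inner_smul_right, inner_tn, RCLike.conj_ofReal]
    rw [hQ]
    push_cast
    refine Finset.sum_congr rfl fun k _ => Finset.sum_congr rfl fun l _ => ?_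
    ring
  have hTe : ∀ k ∈ P, inner 𝕜 T (tn (e k)) = 1 := by
    intro k hk
    rw [hT, inner_sub_left, hwe k hk, inner_jn_tn, he]; simp
  have hTS : inner 𝕜 T S = ((B : ℝ) : 𝕜) := by
    rw [hS, inner_sum, hB]
    push_cast
    refine Finset.sum_congr rfl fun k hk => ?_
    rw [inner_smul_right, hTe k hk, mul_one]
  have hST : inner 𝕜 S T = ((B : ℝ) : 𝕜) := by
    rw [← inner_conj_symm, hTS, RCLike.conj_ofReal]
  have hTT : inner 𝕜 T T = 2 := by
    rw [hT]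
    simp only [inner_sub_left, inner_sub_right]
    rw [inner_jn_jn, inner_jn_tn, inner_tn, ← inner_conj_symm (tn w) jn, inner_jn_tn, hw, ip_self, hw]
    simp
    norm_num
  have hXX : inner 𝕜 (S - (((B / 2 : ℝ)) : 𝕜) • T) (S - (((B / 2 : ℝ)) : 𝕜) • T) =
      ((Q - B ^ 2 / 2 : ℝ) : 𝕜) := by
    simp only [inner_sub_left, inner_sub_right, inner_smul_left, inner_smul_right, hSS, hTS, hST,
      hTT, RCLike.conj_ofReal]
    push_cast
    ring
  have hnn : ‖S - (((B / 2 : ℝ)) : 𝕜) • T‖ ^ 2 = Q - B ^ 2 / 2 := by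
    rw [← RCLike.ofReal_inj (K := 𝕜), ← hXX, inner_self_eq_norm_sq_to_K]
    push_cast; rfl
  refine ⟨by nlinarith [sq_nonneg ‖S - (((B / 2 : ℝ)) : 𝕜) • T‖], ?_⟩
  intro hEq l hl
  have h0 : S - (((B / 2 : ℝ)) : 𝕜) • T = 0 := by
    rw [← norm_eq_zero, ← sq_eq_zero_iff, hnn, hEq, sub_self]
  have h1 : inner 𝕜 (S - (((B / 2 : ℝ)) : 𝕜) • T) (tn (e l)) = 0 := by rw [h0, inner_zero_left]
  rw [inner_sub_left, inner_smul_left, hTe l hl, hS, sum_inner] at h1
  simp only [inner_smul_left, inner_tn, RCLike.conj_ofReal, mul_one] at h1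
  have h2 : ((∑ k ∈ P, a k * ‖ip (e k) (e l)‖ ^ 2 - B / 2 : ℝ) : 𝕜) = ((0 : ℝ) : 𝕜) := by
    push_cast at h1 ⊢
    exact h1
  have h3 := RCLike.ofReal_injective h2
  linarith

end FSH
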