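import Mathlib

/-!
# Five points against five points at a fixed angle

`x₁,…,x₅` and `y₁,…,y₅` unit vectors of `𝕜³`, no three of either family linearly dependent, and
`|⟨x_a, y_b⟩|² = c` for all `a, b`: then `c = 1/3`.
-/

open scoped BigOperators ComplexConjugate
open Matrix

namespace FSH

variable {𝕜 : Type*} [RCLike 𝕜]

/-- the Hermitian product `∑ conj(x_a) y_a` -/
noncomputable def ip (x y : Fin 3 → 𝕜) : 𝕜 := ∑ a, conj (x a) * y a

/-- the squared length -/
noncomputable def nsq (x : Fin 3 → 𝕜) : ℝ := ∑ a, ‖x a‖ ^ 2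

/-- the determinant of three vectors -/
noncomputable def dt (x y z : Fin 3 → 𝕜) : 𝕜 := Matrix.det ![x, y, z]

/-- the tensor `x ⊗ conj x` -/
noncomputable def tn (x : Fin 3 → 𝕜) : EuclideanSpace 𝕜 (Fin 3 × Fin 3) :=
  WithLp.toLp 2 (fun p => x p.1 * conj (x p.2))

/-- the identity tensor -/
noncomputable def jn : EuclideanSpace 𝕜 (Fin 3 × Fin 3) :=
  WithLp.toLp 2 (fun p => if p.1 = p.2 then 1 else 0)

lemma ip_self (x : Fin 3 → 𝕜) : ip x x = ((nsq x : ℝ) : 𝕜) := by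
  unfold ip nsq
  push_cast
  refine Finset.sum_congr rfl fun a _ => ?_
  rw [RCLike.conj_mul]

lemma inner_tn (x y : Fin 3 → 𝕜) : inner 𝕜 (tn x) (tn y) = ((‖ip x y‖ ^ 2 : ℝ) : 𝕜) := by
  have h : ((‖ip x y‖ ^ 2 : ℝ) : 𝕜) = ip x y * conj (ip x y) := by
    rw [RCLike.mul_conj]; push_cast; rfl
  rw [h]
  simp only [tn, EuclideanSpace.inner_eq_star_dotProduct, dotProduct, Fintype.sum_prod_type,
    Pi.star_apply, ip, Fin.sum_univ_three, map_add, map_mul, RCLike.conj_conj, RCLike.star_def]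
  ring

lemma inner_jn_tn (x : Fin 3 → 𝕜) : inner 𝕜 (jn (𝕜 := 𝕜)) (tn x) = ((nsq x : ℝ) : 𝕜) := by
  rw [← ip_self]
  simp only [tn, jn, EuclideanSpace.inner_eq_star_dotProduct, dotProduct, Fintype.sum_prod_type,
    Pi.star_apply, ip, Fin.sum_univ_three, map_add, map_mul, RCLike.star_def]
  simp
  ring

lemma inner_jn_jn : inner 𝕜 (jn (𝕜 := 𝕜)) jn = 3 := by
  simp only [jn, EuclideanSpace.inner_eq_star_dotProduct, dotProduct, Fintype.sum_prod_type,
    Pi.star_apply, Fin.sum_univ_three, RCLike.star_def]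
  simp
  norm_num

/-- test functional -/
noncomputable def tf (p q : Fin 3 → 𝕜) : EuclideanSpace 𝕜 (Fin 3 × Fin 3) →ₗ[𝕜] 𝕜 where
  toFun Z := ∑ r : Fin 3 × Fin 3, p r.1 * conj (q r.2) * Z r
  map_add' X Y := by
    rw [← Finset.sum_add_distrib]
    refine Finset.sum_congr rfl fun r _ => ?_
    simp only [PiLp.add_apply]; ring
  map_smul' c X := by
    simp only [RingHom.id_apply, smul_eq_mul, Finset.mul_sum]
    refine Finset.sum_congr rfl fun r _ => ?_
    simp only [PiLp.smul_apply, smul_eq_mul]; ring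

lemma tf_tn (p q z : Fin 3 → 𝕜) : tf p q (tn z) = (p ⬝ᵥ z) * conj (q ⬝ᵥ z) := by
  simp only [tf, tn, LinearMap.coe_mk, AddHom.coe_mk, Fintype.sum_prod_type, dotProduct,
    Fin.sum_univ_three, map_add, map_mul]
  ring

lemma cross_dot (a b z : Fin 3 → 𝕜) : (a ⨯₃ b) ⬝ᵥ z = dt z a b := by
  unfold dt
  rw [← triple_product_eq_det, dotProduct_comm]

lemma dt_self_left (a b : Fin 3 → 𝕜) : dt a a b = 0 := by
  unfold dt
  rw [← triple_product_eq_det]; simp

lemma dt_self_mid (a b : Fin 3 → 𝕜) : dt b a b = 0 := by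
  unfold dt
  rw [← triple_product_eq_det]; simp

lemma fin5_facts : ∀ i : Fin 5, i ≠ i + 1 ∧ i ≠ i + 2 ∧ i ≠ i + 3 ∧ i ≠ i + 4 ∧ i + 1 ≠ i + 2 ∧
    i + 3 ≠ i + 4 ∧ ∀ k, k = i ∨ k = i + 1 ∨ k = i + 2 ∨ k = i + 3 ∨ k = i + 4 := by decide

lemma tn_indep (x : Fin 5 → Fin 3 → 𝕜)
    (hx : ∀ a b c, a ≠ b → a ≠ c → b ≠ c → dt (x a) (x b) (x c) ≠ 0) :
    LinearIndependent 𝕜 (fun a => tn (x a)) := by
  rw [Fintype.linearIndependent_iff]
  intro g hg i
  have key : ∀ b c d e : Fin 5, i ≠ b → i ≠ c → i ≠ d → i ≠ e → b ≠ c → d ≠ e →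
      (∀ k, k = i ∨ k = b ∨ k = c ∨ k = d ∨ k = e) → g i = 0 := by
    intro b c d e h1 h2 h3 h4 h5 h6 hk
    have h := congrArg (tf (x b ⨯₃ x c) (x d ⨯₃ x e)) hg
    rw [map_sum, map_zero] at h
    have hz : ∀ k, k ≠ i → tf (x b ⨯₃ x c) (x d ⨯₃ x e) (g k • tn (x k)) = 0 := by
      intro k hki
      rw [map_smul, tf_tn, cross_dot, cross_dot]
      rcases hk k with rfl | rfl | rfl | rfl | rfl
      · exact absurd rfl hki
      · rw [dt_self_left]; simp
      · rw [dt_self_mid]; simp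
      · rw [dt_self_left (x k) (x e)]; simp
      · rw [dt_self_mid (x d) (x k)]; simp
    rw [Finset.sum_eq_single i (fun k _ hki => hz k hki) (by simp), map_smul, tf_tn, cross_dot,
      cross_dot, smul_eq_mul] at h
    have hne : dt (x i) (x b) (x c) * conj (dt (x i) (x d) (x e)) ≠ 0 :=
      mul_ne_zero (hx _ _ _ h1 h2 h5) ((map_ne_zero _).2 (hx _ _ _ h3 h4 h6))
    exact (mul_eq_zero.1 h).resolve_right hne
  obtain ⟨h1, h2, h3, h4, h5, h6, h7⟩ := fin5_facts i
  exact key (i + 1) (i + 2) (i + 3) (i + 4) h1 h2 h3 h4 h5 h6 h7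

/-- **Five against five**: the angle must be the one with `c = 1/3`. -/
theorem five_five (x y : Fin 5 → Fin 3 → 𝕜) (hx1 : ∀ a, nsq (x a) = 1) (hy1 : ∀ a, nsq (y a) = 1)
    (hx : ∀ a b c, a ≠ b → a ≠ c → b ≠ c → dt (x a) (x b) (x c) ≠ 0)
    (hy : ∀ a b c, a ≠ b → a ≠ c → b ≠ c → dt (y a) (y b) (y c) ≠ 0)
    (c : ℝ) (h : ∀ a b, ‖ip (x a) (y b)‖ ^ 2 = c) : c = 1 / 3 := by
  by_contra hc
  have hX := tn_indep x hx
  have hY := tn_indep y hy
  -- `jn` is not in the span of the `tn (y b)`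
  have hJ : (jn : EuclideanSpace 𝕜 (Fin 3 × Fin 3)) ∉ Submodule.span 𝕜 (Set.range fun a => tn (y a)) := by
    intro hmem
    rw [Submodule.mem_span_range_iff_exists_fun] at hmem
    obtain ⟨μ, hμ⟩ := hmem
    have h1 : (3 : 𝕜) = ∑ b, μ b := by
      have := congrArg (fun Z => inner 𝕜 (jn (𝕜 := 𝕜)) Z) hμ
      simp only [inner_sum, inner_smul_right, inner_jn_tn, hy1, inner_jn_jn] at this
      simpa using this.symm
    have h2 : (1 : 𝕜) = (∑ b, μ b) * (c : 𝕜) := by
      have := congrArg (fun Z => inner 𝕜 (tn (x 0)) Z) hμ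
      simp only [inner_sum, inner_smul_right, inner_tn, h] at this
      rw [← Finset.sum_mul] at this
      rw [this, ← inner_conj_symm, inner_jn_tn, hx1]
      simp
    rw [← h1] at h2
    have h3 : ((3 * c : ℝ) : 𝕜) = ((1 : ℝ) : 𝕜) := by push_cast; exact h2.symm
    have h4 : 3 * c = 1 := RCLike.ofReal_injective h3
    exact hc (by linarith)
  have hU : LinearIndependent 𝕜 (Fin.cons jn (fun a => tn (y a)) :
      Fin 6 → EuclideanSpace 𝕜 (Fin 3 × Fin 3)) :=
    linearIndependent_finCons.2 ⟨hY, hJ⟩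
  have hD : LinearIndependent 𝕜 (fun a : Fin 4 => tn (x a.succ) - tn (x 0)) := by
    rw [Fintype.linearIndependent_iff]
    intro g hg
    rw [Fintype.linearIndependent_iff] at hX
    have h0 := hX (Fin.cons (-∑ a, g a) g) (by
      rw [Fin.sum_univ_succ]
      simp only [Fin.cons_zero, Fin.cons_succ]
      have : ∑ a : Fin 4, g a • (tn (x a.succ) - tn (x 0)) =
          -(∑ a, g a) • tn (x 0) + ∑ a : Fin 4, g a • tn (x a.succ) := by
        simp only [smul_sub, Finset.sum_sub_distrib, neg_smul, Finset.sum_smul]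
        abel
      rw [← this]; exact hg)
    intro a
    have := h0 a.succ
    simpa using this
  set U := Submodule.span 𝕜 (Set.range (Fin.cons jn (fun a => tn (y a)) :
      Fin 6 → EuclideanSpace 𝕜 (Fin 3 × Fin 3))) with hUdef
  set U' := Submodule.span 𝕜 (Set.range (fun a : Fin 4 => tn (x a.succ) - tn (x 0))) with hU'def
  have hfU : Module.finrank 𝕜 U = 6 := by rw [hUdef, finrank_span_eq_card hU]; simp
  have hfU' : Module.finrank 𝕜 U' = 4 := by rw [hU'def, finrank_span_eq_card hD]; simp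
  have hort : U ⟂ U' := by
    rw [Submodule.isOrtho_span]
    rintro u ⟨a, rfl⟩ w ⟨b, rfl⟩
    refine Fin.cases ?_ (fun a => ?_) a
    · simp only [Fin.cons_zero, inner_sub_right, inner_jn_tn, hx1]; simp
    · simp only [Fin.cons_succ, inner_sub_right]
      rw [← inner_conj_symm, inner_tn, ← inner_conj_symm (tn (y a)) (tn (x 0)), inner_tn, h, h]
      simp
  have hdis : Disjoint U U' := hort.disjoint
  have hle := Submodule.finrank_add_finrank_le_of_disjoint hdis
  rw [hfU, hfU'] at hle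
  have h9 : Module.finrank 𝕜 (EuclideanSpace 𝕜 (Fin 3 × Fin 3)) = 9 := by simp
  omega

end FSH
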