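import Pool.Agent.FSH.K55

/-!
# Stable weighted arrangements can be put in balanced position

(Kempf–Ness; Barthe, Forster.)  If the weights `a_i > 0` have sum `3`, every `a_i < 1` and every
plane carries weight `< 2`, then a linear change of coordinates makes the weighted unit normals a
tight frame.
-/

open scoped BigOperators ComplexConjugate
open Matrix

namespace FSH

variable {𝕜 : Type*} [RCLike 𝕜] {ι : Type*} [Fintype ι]

lemma nsq_nonneg (x : Fin 3 → 𝕜) : 0 ≤ nsq x := Finset.sum_nonneg fun a _ => by positivity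

lemma nsq_eq_zero {x : Fin 3 → 𝕜} (h : nsq x = 0) : x = 0 := by
  unfold nsq at h
  rw [Finset.sum_eq_zero_iff_of_nonneg (fun a _ => by positivity)] at h
  funext a
  have := h a (Finset.mem_univ a)
  simpa using this

lemma nsq_pos {x : Fin 3 → 𝕜} (h : x ≠ 0) : 0 < nsq x :=
  lt_of_le_of_ne (nsq_nonneg x) fun h' => h (nsq_eq_zero h'.symm)

lemma norm_le_sqrt_nsq (x : Fin 3 → 𝕜) (a : Fin 3) : ‖x a‖ ≤ Real.sqrt (nsq x) := by
  apply Real.le_sqrt_of_sq_le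
  exact Finset.single_le_sum (f := fun a => ‖x a‖ ^ 2) (fun a _ => by positivity)
    (Finset.mem_univ a)

lemma dt_eq (x y z : Fin 3 → 𝕜) : dt x y z = x 0 * y 1 * z 2 - x 0 * y 2 * z 1 - x 1 * y 0 * z 2 +
    x 1 * y 2 * z 0 + x 2 * y 0 * z 1 - x 2 * y 1 * z 0 := by
  unfold dt
  rw [Matrix.det_fin_three]
  simp

lemma dt_mul (g : Matrix (Fin 3) (Fin 3) 𝕜) (x y z : Fin 3 → 𝕜) :
    dt (g *ᵥ x) (g *ᵥ y) (g *ᵥ z) = g.det * dt x y z := by
  have h : Matrix.of ![g *ᵥ x, g *ᵥ y, g *ᵥ z] = Matrix.of ![x, y, z] * gᵀ := by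
    ext i j
    fin_cases i <;> simp [Matrix.mul_apply, Matrix.mulVec, dotProduct, mul_comm]
  change (Matrix.of ![g *ᵥ x, g *ᵥ y, g *ᵥ z]).det = g.det * (Matrix.of ![x, y, z]).det
  rw [h, Matrix.det_mul, Matrix.det_transpose, mul_comm]

lemma dt_le (x y z : Fin 3 → 𝕜) : ‖dt x y z‖ ^ 2 ≤ 36 * (nsq x * nsq y * nsq z) := by
  set X := Real.sqrt (nsq x) with hX
  set Y := Real.sqrt (nsq y) with hY
  set Z := Real.sqrt (nsq z) with hZ
  have hX0 : 0 ≤ X := Real.sqrt_nonneg _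
  have hY0 : 0 ≤ Y := Real.sqrt_nonneg _
  have hZ0 : 0 ≤ Z := Real.sqrt_nonneg _
  have h1 : ∀ a b c : Fin 3, ‖x a * y b * z c‖ ≤ X * Y * Z := by
    intro a b c
    rw [norm_mul, norm_mul]
    have := norm_le_sqrt_nsq x a
    have := norm_le_sqrt_nsq y b
    have := norm_le_sqrt_nsq z c
    gcongr
  have h2 : ‖dt x y z‖ ≤ 6 * (X * Y * Z) := by
    rw [dt_eq]
    calc ‖x 0 * y 1 * z 2 - x 0 * y 2 * z 1 - x 1 * y 0 * z 2 + x 1 * y 2 * z 0 +
          x 2 * y 0 * z 1 - x 2 * y 1 * z 0‖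
        ≤ ‖x 0 * y 1 * z 2‖ + ‖x 0 * y 2 * z 1‖ + ‖x 1 * y 0 * z 2‖ + ‖x 1 * y 2 * z 0‖ +
          ‖x 2 * y 0 * z 1‖ + ‖x 2 * y 1 * z 0‖ := by
          refine (norm_sub_le _ _).trans (add_le_add_left ?_ _)
          refine (norm_add_le _ _).trans (add_le_add_left ?_ _)
          refine (norm_add_le _ _).trans (add_le_add_left ?_ _)
          refine (norm_sub_le _ _).trans (add_le_add_left ?_ _)
          exact norm_sub_le _ _
      _ ≤ 6 * (X * Y * Z) := by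
          have := h1 0 1 2; have := h1 0 2 1; have := h1 1 0 2; have := h1 1 2 0
          have := h1 2 0 1; have := h1 2 1 0
          linarith
  calc ‖dt x y z‖ ^ 2 ≤ (6 * (X * Y * Z)) ^ 2 := pow_le_pow_left₀ (norm_nonneg _) h2 2
    _ = 36 * (X ^ 2 * Y ^ 2 * Z ^ 2) := by ring
    _ = _ := by rw [hX, hY, hZ, Real.sq_sqrt (nsq_nonneg x), Real.sq_sqrt (nsq_nonneg y),
        Real.sq_sqrt (nsq_nonneg z)]

lemma mulVec_ne_zero' {g : Matrix (Fin 3) (Fin 3) 𝕜} (hg : g.det ≠ 0) {x : Fin 3 → 𝕜} (hx : x ≠ 0) :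
    g *ᵥ x ≠ 0 := by
  intro h
  exact hx (Matrix.eq_zero_of_mulVec_eq_zero hg h)

/-- the Kempf–Ness functional -/
noncomputable def KF (a : ι → ℝ) (v : ι → Fin 3 → 𝕜) (g : Matrix (Fin 3) (Fin 3) 𝕜) : ℝ :=
  ∑ i, a i * Real.log (nsq (g *ᵥ v i)) - Real.log (‖g.det‖ ^ 2)

lemma exists_pos_le {α : Type*} [Finite α] (f : α → ℝ) (hf : ∀ x, 0 < f x) :
    ∃ κ : ℝ, 0 < κ ∧ ∀ x, κ ≤ f x := by
  classical
  cases nonempty_fintype α
  by_cases h : Nonempty α
  · obtain ⟨x, hx⟩ := Finite.exists_min f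
    exact ⟨f x, hf x, hx⟩
  · exact ⟨1, one_pos, fun x => absurd ⟨x⟩ h⟩

lemma big_image (u : Fin 3 → Fin 3 → 𝕜) (hu : dt (u 0) (u 1) (u 2) ≠ 0) :
    ∃ δ : ℝ, 0 < δ ∧ ∀ g : Matrix (Fin 3) (Fin 3) 𝕜, (∃ a b, ‖g a b‖ = 1) →
      ∃ m, δ ≤ nsq (g *ᵥ u m) := by
  set V : Matrix (Fin 3) (Fin 3) 𝕜 := fun r c => u c r with hV
  have hVdet : V.det ≠ 0 := by
    have h : V = (![u 0, u 1, u 2] : Matrix (Fin 3) (Fin 3) 𝕜)ᵀ := by
      ext r c
      fin_cases c <;> rfl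
    rw [h, Matrix.det_transpose]; exact hu
  set K : ℝ := ∑ r, ∑ c, ‖V⁻¹ r c‖ with hK
  have hK0 : 0 ≤ K := Finset.sum_nonneg fun r _ => Finset.sum_nonneg fun c _ => norm_nonneg _
  refine ⟨(1 / (3 * (K + 1))) ^ 2, by positivity, ?_⟩
  rintro g ⟨a, b, hab⟩
  by_contra hcon
  push Not at hcon
  have h1 : ∀ c r, ‖(g *ᵥ u c) r‖ ≤ 1 / (3 * (K + 1)) := by
    intro c r
    have h2 := norm_le_sqrt_nsq (g *ᵥ u c) r
    have h3 : Real.sqrt (nsq (g *ᵥ u c)) ≤ 1 / (3 * (K + 1)) := by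
      rw [Real.sqrt_le_left (by positivity)]
      exact (hcon c).le
    exact h2.trans h3
  have h4 : g = (g * V) * V⁻¹ := by
    rw [Matrix.mul_assoc, Matrix.mul_nonsing_inv V (Ne.isUnit hVdet), Matrix.mul_one]
  have h5 : ‖g a b‖ ≤ ∑ c, (1 / (3 * (K + 1))) * ‖V⁻¹ c b‖ := by
    conv_lhs => rw [h4]
    rw [Matrix.mul_apply]
    refine (norm_sum_le _ _).trans (Finset.sum_le_sum fun c _ => ?_)
    rw [norm_mul]
    have h6 : (g * V) a c = (g *ᵥ u c) a := by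
      simp [Matrix.mul_apply, Matrix.mulVec, dotProduct, hV]
    rw [h6]
    exact mul_le_mul_of_nonneg_right (h1 c a) (norm_nonneg _)
  have h7 : ∑ c, ‖V⁻¹ c b‖ ≤ K := by
    rw [hK]
    refine Finset.sum_le_sum fun c _ => ?_
    exact Finset.single_le_sum (f := fun b => ‖V⁻¹ c b‖) (fun _ _ => norm_nonneg _)
      (Finset.mem_univ b)
  rw [← Finset.mul_sum, hab] at h5
  have h8 : (1 / (3 * (K + 1))) * ∑ c, ‖V⁻¹ c b‖ ≤ (1 / (3 * (K + 1))) * K :=
    mul_le_mul_of_nonneg_left h7 (by positivity)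
  have h9 : (1 / (3 * (K + 1))) * K < 1 := by
    rw [one_div, inv_mul_lt_one₀ (by positivity)]
    linarith
  linarith

section Main

variable (a : ι → ℝ) (v : ι → Fin 3 → 𝕜)

open Classical in
/-- stability of a weighted arrangement -/
structure Stab : Prop where
  pos : ∀ i, 0 < a i
  sum : ∑ i, a i = 3
  pt : ∀ i, a i < 1
  pl : ∀ i j, i ≠ j → ∑ k, (if dt (v i) (v j) (v k) = 0 then a k else 0) < 2

variable {a v}

lemma Stab.exists_dt (h : Stab a v) {i j : ι} (hij : i ≠ j) : ∃ k, dt (v i) (v j) (v k) ≠ 0 := by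
  classical
  by_contra hcon
  push Not at hcon
  have h1 := h.pl i j hij
  simp only [hcon, if_true] at h1
  rw [h.sum] at h1
  linarith

lemma Stab.exists_ne (h : Stab a v) (i : ι) : ∃ j, j ≠ i := by
  by_contra hcon
  push Not at hcon
  have h1 : ∑ k, a k = a i := by
    rw [← Finset.sum_subset (Finset.subset_univ {i}) (fun k _ hk => absurd (hcon k) (by simpa using hk))]
    simp
  have := h.pt i
  rw [h.sum] at h1
  linarith

lemma Stab.ne_zero (h : Stab a v) (i : ι) : v i ≠ 0 := by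
  intro h0
  obtain ⟨j, hj⟩ := h.exists_ne i
  obtain ⟨k, hk⟩ := h.exists_dt hj.symm
  apply hk
  rw [dt_eq, h0]; simp

lemma Stab.nonempty (h : Stab a v) : Nonempty ι := by
  by_contra hcon
  rw [not_nonempty_iff] at hcon
  have := h.sum
  simp at this

lemma Stab.coercive (h : Stab a v) : ∃ C κ : ℝ, 0 < κ ∧ ∀ g : Matrix (Fin 3) (Fin 3) 𝕜, g.det ≠ 0 →
    ∀ m i, (∀ l, Real.log (nsq (g *ᵥ v i)) ≤ Real.log (nsq (g *ᵥ v l))) →
      -C + κ * (Real.log (nsq (g *ᵥ v m)) - Real.log (nsq (g *ᵥ v i))) ≤ KF a v g := by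
  classical
  set A : ι → ι → ℝ := fun i j => ∑ k, (if dt (v i) (v j) (v k) = 0 then a k else 0) with hA
  obtain ⟨κ1, hκ1, h1⟩ := exists_pos_le a h.pos
  obtain ⟨κ2, hκ2, h2⟩ := exists_pos_le (fun i => 1 - a i) (fun i => by have := h.pt i; linarith)
  obtain ⟨κ3, hκ3, h3⟩ := exists_pos_le (fun p : {p : ι × ι // p.1 ≠ p.2} => 2 - A p.1.1 p.1.2)
    (fun p => by have := h.pl p.1.1 p.1.2 p.2; simp only [hA]; linarith)
  set κ := min κ1 (min κ2 κ3) with hκ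
  have hκpos : 0 < κ := lt_min hκ1 (lt_min hκ2 hκ3)
  set C : ℝ := ∑ i, ∑ j, ∑ k, |Real.log (‖dt (v i) (v j) (v k)‖ ^ 2 / 36)| with hC
  refine ⟨C, κ, hκpos, ?_⟩
  intro g hg m i hi
  set b : ι → ℝ := fun l => Real.log (nsq (g *ᵥ v l)) with hb
  set L := Real.log (‖g.det‖ ^ 2) with hL
  have hgd : 0 < ‖g.det‖ ^ 2 := by have := norm_pos_iff.2 hg; positivity
  have hnp : ∀ l, 0 < nsq (g *ᵥ v l) := fun l => nsq_pos (mulVec_ne_zero' hg (h.ne_zero l))
  have had : ∀ i j k, dt (v i) (v j) (v k) ≠ 0 → L - C ≤ b i + b j + b k := by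
    intro i j k hd
    have hdp : 0 < ‖dt (v i) (v j) (v k)‖ ^ 2 := by have := norm_pos_iff.2 hd; positivity
    have e1 := dt_le (g *ᵥ v i) (g *ᵥ v j) (g *ᵥ v k)
    rw [dt_mul, norm_mul, mul_pow] at e1
    have e2 : ‖g.det‖ ^ 2 * (‖dt (v i) (v j) (v k)‖ ^ 2 / 36) ≤
        nsq (g *ᵥ v i) * nsq (g *ᵥ v j) * nsq (g *ᵥ v k) := by
      have : ‖g.det‖ ^ 2 * (‖dt (v i) (v j) (v k)‖ ^ 2 / 36) =
        (‖g.det‖ ^ 2 * ‖dt (v i) (v j) (v k)‖ ^ 2) / 36 := by ring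
      rw [this, div_le_iff₀ (by norm_num)]; linarith
    have e3 := Real.log_le_log (by positivity) e2
    rw [Real.log_mul (ne_of_gt hgd) (by positivity), Real.log_mul (mul_ne_zero (hnp i).ne' (hnp j).ne') (hnp k).ne',
      Real.log_mul (hnp i).ne' (hnp j).ne'] at e3
    have e4 : |Real.log (‖dt (v i) (v j) (v k)‖ ^ 2 / 36)| ≤ C := by
      rw [hC]
      calc _ ≤ ∑ k, |Real.log (‖dt (v i) (v j) (v k)‖ ^ 2 / 36)| :=
            Finset.single_le_sum (f := fun k => |Real.log (‖dt (v i) (v j) (v k)‖ ^ 2 / 36)|)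
              (fun _ _ => abs_nonneg _) (Finset.mem_univ k)
        _ ≤ ∑ j, ∑ k, |Real.log (‖dt (v i) (v j) (v k)‖ ^ 2 / 36)| :=
            Finset.single_le_sum (f := fun j => ∑ k, |Real.log (‖dt (v i) (v j) (v k)‖ ^ 2 / 36)|)
              (fun _ _ => Finset.sum_nonneg fun _ _ => abs_nonneg _) (Finset.mem_univ j)
        _ ≤ _ := Finset.single_le_sum
              (f := fun i => ∑ j, ∑ k, |Real.log (‖dt (v i) (v j) (v k)‖ ^ 2 / 36)|)
              (fun _ _ => Finset.sum_nonneg fun _ _ => Finset.sum_nonneg fun _ _ => abs_nonneg _)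
              (Finset.mem_univ i)
    have e5 := neg_abs_le (Real.log (‖dt (v i) (v j) (v k)‖ ^ 2 / 36))
    simp only [hb]
    linarith
  -- choose `j`
  obtain ⟨j, hj, hjmin⟩ := Finset.exists_min_image (Finset.univ.filter fun l => l ≠ i) b
    (by obtain ⟨j, hj⟩ := h.exists_ne i; exact ⟨j, by simp [hj]⟩)
  simp only [Finset.mem_filter, Finset.mem_univ, true_and] at hj hjmin
  obtain ⟨k, hk, hkmin⟩ := Finset.exists_min_image
    (Finset.univ.filter fun l => dt (v i) (v j) (v l) ≠ 0) b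
    (by obtain ⟨k, hk⟩ := h.exists_dt hj.symm; exact ⟨k, by simp [hk]⟩)
  simp only [Finset.mem_filter, Finset.mem_univ, true_and] at hk hkmin
  have hki : k ≠ i := by
    rintro rfl
    exact hk (dt_self_mid _ _)
  have hbij : b i ≤ b j := hi j
  have hbjk : b j ≤ b k := hjmin k hki
  set c : ι → ℝ := fun l => (if l = i then b i - b j else 0) +
    (if dt (v i) (v j) (v l) = 0 then b j - b k else 0) + b k with hc
  have hdii : dt (v i) (v j) (v i) = 0 := dt_self_mid _ _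
  have hcb : ∀ l, c l ≤ b l := by
    intro l
    simp only [hc]
    by_cases h1 : l = i
    · subst h1; rw [if_pos rfl, if_pos hdii]; linarith
    · rw [if_neg h1]
      by_cases h2 : dt (v i) (v j) (v l) = 0
      · rw [if_pos h2]; have := hjmin l h1; linarith
      · rw [if_neg h2]; have := hkmin l h2; linarith
  have hck : ∀ l, c l ≤ b k := by
    intro l
    simp only [hc]
    split_ifs <;> linarith
  have hsum : ∑ l, a l * c l = a i * (b i - b j) + A i j * (b j - b k) + 3 * b k := by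
    simp only [hc, mul_add, Finset.sum_add_distrib]
    congr 1
    · congr 1
      · simp
      · simp only [hA]
        rw [Finset.sum_mul]
        refine Finset.sum_congr rfl fun l _ => ?_
        split_ifs <;> ring
    · rw [← Finset.sum_mul, h.sum]
  have hsum2 : ∑ l, a l * c l + a m * (b m - c m) ≤ ∑ l, a l * b l := by
    have e1 : a m * (b m - c m) ≤ ∑ l, a l * (b l - c l) :=
      Finset.single_le_sum (f := fun l => a l * (b l - c l))
        (fun l _ => mul_nonneg (h.pos l).le (sub_nonneg.2 (hcb l))) (Finset.mem_univ m)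
    have e2 : ∑ l, a l * (b l - c l) = ∑ l, a l * b l - ∑ l, a l * c l := by
      rw [← Finset.sum_sub_distrib]
      exact Finset.sum_congr rfl fun l _ => by ring
    linarith
  have hijk := had i j k hk
  have k1 : κ ≤ a m := (min_le_left _ _).trans (h1 m)
  have k2 : κ ≤ 1 - a i := ((min_le_right _ _).trans (min_le_left _ _)).trans (h2 i)
  have k3 : κ ≤ 2 - A i j := ((min_le_right _ _).trans (min_le_right _ _)).trans
    (h3 ⟨(i, j), hj.symm⟩)
  have m1 : κ * (b j - b i) ≤ (1 - a i) * (b j - b i) :=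
    mul_le_mul_of_nonneg_right k2 (by linarith)
  have m2 : κ * (b k - b j) ≤ (2 - A i j) * (b k - b j) :=
    mul_le_mul_of_nonneg_right k3 (by linarith)
  have m3 : κ * (b m - c m) ≤ a m * (b m - c m) :=
    mul_le_mul_of_nonneg_right k1 (by linarith [hcb m])
  have m4 : 0 ≤ κ * (b k - c m) := mul_nonneg hκpos.le (by linarith [hck m])
  have hKF : KF a v g = ∑ l, a l * b l - L := rfl
  rw [hKF]
  have hgoal : κ * (b m - b i) = κ * (b j - b i) + κ * (b k - b j) + κ * (b m - c m) -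
    κ * (b k - c m) := by ring
  change -C + κ * (b m - b i) ≤ _
  rw [hgoal]
  nlinarith [m1, m2, m3, m4, hsum, hsum2, hijk]

lemma Stab.det_lower (h : Stab a v) : ∃ ρ : ℝ, 0 < ρ ∧ ρ ≤ 1 ∧
    ∀ g : Matrix (Fin 3) (Fin 3) 𝕜, g.det ≠ 0 → (∃ r s, ‖g r s‖ = 1) → KF a v g ≤ KF a v 1 →
      ρ ≤ ‖g.det‖ ^ 2 := by
  classical
  obtain ⟨C, κ, hκ, hco⟩ := h.coercive
  obtain ⟨i0⟩ := h.nonempty
  obtain ⟨j0, hj0⟩ := h.exists_ne i0
  obtain ⟨k0, hk0⟩ := h.exists_dt hj0.symm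
  obtain ⟨δ, hδ, hbig⟩ := big_image (𝕜 := 𝕜) ![v i0, v j0, v k0] (by simpa using hk0)
  set F0 := KF a v (1 : Matrix (Fin 3) (Fin 3) 𝕜) with hF0
  set B := Real.log δ - (F0 + C) / κ with hB
  refine ⟨min 1 (Real.exp (3 * B - F0)), lt_min one_pos (Real.exp_pos _), min_le_left _ _, ?_⟩
  intro g hg hrs hF
  obtain ⟨m', hm'⟩ := hbig g hrs
  have hm : ∃ m, δ ≤ nsq (g *ᵥ v m) := by
    fin_cases m'
    · exact ⟨i0, hm'⟩
    · exact ⟨j0, hm'⟩
    · exact ⟨k0, hm'⟩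
  obtain ⟨m, hm⟩ := hm
  have := h.nonempty
  obtain ⟨i, hi⟩ := Finite.exists_min (fun l => Real.log (nsq (g *ᵥ v l)))
  have h1 := hco g hg m i hi
  have h2 : Real.log δ ≤ Real.log (nsq (g *ᵥ v m)) := Real.log_le_log hδ hm
  have h3 : B ≤ Real.log (nsq (g *ᵥ v i)) := by
    rw [hB]
    have : κ * (Real.log (nsq (g *ᵥ v m)) - Real.log (nsq (g *ᵥ v i))) ≤ F0 + C := by linarith
    have h4 : Real.log (nsq (g *ᵥ v m)) - Real.log (nsq (g *ᵥ v i)) ≤ (F0 + C) / κ := by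
      rw [le_div_iff₀ hκ]; linarith
    linarith
  have h4 : 3 * B ≤ ∑ l, a l * Real.log (nsq (g *ᵥ v l)) := by
    calc 3 * B = ∑ l, a l * B := by rw [← Finset.sum_mul, h.sum]
      _ ≤ _ := Finset.sum_le_sum fun l _ => mul_le_mul_of_nonneg_left (h3.trans (hi l)) (h.pos l).le
  have h5 : 3 * B - F0 ≤ Real.log (‖g.det‖ ^ 2) := by
    have : KF a v g = ∑ l, a l * Real.log (nsq (g *ᵥ v l)) - Real.log (‖g.det‖ ^ 2) := rfl
    linarith
  have hgd : 0 < ‖g.det‖ ^ 2 := by have := norm_pos_iff.2 hg; positivity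
  calc min 1 (Real.exp (3 * B - F0)) ≤ Real.exp (3 * B - F0) := min_le_right _ _
    _ ≤ Real.exp (Real.log (‖g.det‖ ^ 2)) := Real.exp_le_exp.2 h5
    _ = _ := Real.exp_log hgd

end Main

end FSH
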