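import Pool.Agent.FSH.KN

/-!
# The minimiser of the Kempf–Ness functional and the balanced position
-/

open scoped BigOperators ComplexConjugate
open Matrix

namespace FSH

variable {𝕜 : Type*} [RCLike 𝕜] {ι : Type*} [Fintype ι]

lemma nsq_smul (c : 𝕜) (x : Fin 3 → 𝕜) : nsq (c • x) = ‖c‖ ^ 2 * nsq x := by
  unfold nsq
  rw [Finset.mul_sum]
  refine Finset.sum_congr rfl fun a _ => ?_
  rw [Pi.smul_apply, smul_eq_mul, norm_mul, mul_pow]

lemma ip_smul_right (c : 𝕜) (x y : Fin 3 → 𝕜) : ip x (c • y) = c * ip x y := by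
  unfold ip
  rw [Finset.mul_sum]
  refine Finset.sum_congr rfl fun a _ => ?_
  rw [Pi.smul_apply, smul_eq_mul]; ring

lemma ip_smul_left (c : 𝕜) (x y : Fin 3 → 𝕜) : ip (c • x) y = conj c * ip x y := by
  unfold ip
  rw [Finset.mul_sum]
  refine Finset.sum_congr rfl fun a _ => ?_
  rw [Pi.smul_apply, smul_eq_mul, map_mul]; ring

variable {a : ι → ℝ} {v : ι → Fin 3 → 𝕜}

lemma KF_smul (h : Stab a v) (g : Matrix (Fin 3) (Fin 3) 𝕜) (hg : g.det ≠ 0) (s : ℝ) (hs : 0 < s) :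
    KF a v ((s : 𝕜) • g) = KF a v g := by
  unfold KF
  have hn : ‖(s : 𝕜)‖ = s := by rw [RCLike.norm_ofReal, abs_of_pos hs]
  have h1 : ∀ i, Real.log (nsq (((s : 𝕜) • g) *ᵥ v i)) = 2 * Real.log s +
      Real.log (nsq (g *ᵥ v i)) := by
    intro i
    have hp := nsq_pos (mulVec_ne_zero' hg (h.ne_zero i))
    rw [Matrix.smul_mulVec, nsq_smul, hn, Real.log_mul (by positivity) hp.ne', Real.log_pow]
    push_cast; ring
  have h2 : Real.log (‖((s : 𝕜) • g).det‖ ^ 2) = 6 * Real.log s + Real.log (‖g.det‖ ^ 2) := by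
    have hgd : 0 < ‖g.det‖ := norm_pos_iff.2 hg
    rw [Matrix.det_smul, norm_mul, norm_pow, hn, mul_pow, Real.log_mul (by positivity) (by positivity),
      ← pow_mul, Real.log_pow]
    simp
  rw [h2]
  simp only [h1, mul_add, Finset.sum_add_distrib]
  rw [← Finset.sum_mul, h.sum]
  ring

lemma isCompact_box : IsCompact {g : Matrix (Fin 3) (Fin 3) 𝕜 | ∀ r s, ‖g r s‖ ≤ 1} := by
  have h : {g : Matrix (Fin 3) (Fin 3) 𝕜 | ∀ r s, ‖g r s‖ ≤ 1} =
      Set.pi Set.univ (fun _ : Fin 3 => Set.pi Set.univ (fun _ : Fin 3 => Metric.closedBall (0:𝕜) 1)) := by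
    ext g
    constructor
    · intro h r _ s _
      simpa using h r s
    · intro h r s
      have h1 := h r (Set.mem_univ r) s (Set.mem_univ s)
      simpa using h1
  rw [h]
  exact isCompact_univ_pi fun _ => isCompact_univ_pi fun _ => isCompact_closedBall _ _

lemma continuous_nsq_mulVec (x : Fin 3 → 𝕜) :
    Continuous fun g : Matrix (Fin 3) (Fin 3) 𝕜 => nsq (g *ᵥ x) := by
  unfold nsq
  refine continuous_finsetSum _ fun r _ => ?_
  refine Continuous.pow (Continuous.norm ?_) 2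
  have h : Continuous fun g : Matrix (Fin 3) (Fin 3) 𝕜 => g *ᵥ x :=
    Continuous.matrix_mulVec continuous_id continuous_const
  exact (continuous_apply r).comp h

lemma Stab.exists_min (h : Stab a v) : ∃ g : Matrix (Fin 3) (Fin 3) 𝕜, g.det ≠ 0 ∧
    ∀ g' : Matrix (Fin 3) (Fin 3) 𝕜, g'.det ≠ 0 → KF a v g ≤ KF a v g' := by
  obtain ⟨ρ, hρ, hρ1, hlow⟩ := h.det_lower
  set K : Set (Matrix (Fin 3) (Fin 3) 𝕜) :=
    {g | ∀ r s, ‖g r s‖ ≤ 1} ∩ {g | ρ ≤ ‖g.det‖ ^ 2} with hK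
  have hdc : Continuous fun g : Matrix (Fin 3) (Fin 3) 𝕜 => ‖g.det‖ ^ 2 :=
    Continuous.pow (Continuous.norm (Continuous.matrix_det continuous_id)) 2
  have hKc : IsCompact K := isCompact_box.inter_right (isClosed_le continuous_const hdc)
  have hKd : ∀ g ∈ K, g.det ≠ 0 := by
    intro g hg h0
    have h1 : ρ ≤ ‖g.det‖ ^ 2 := hg.2
    rw [h0] at h1
    simp at h1
    linarith
  have h1K : (1 : Matrix (Fin 3) (Fin 3) 𝕜) ∈ K := by
    refine ⟨fun r s => ?_, ?_⟩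
    · rw [Matrix.one_apply]; split_ifs <;> simp
    · simp only [Set.mem_ofPred_eq, Matrix.det_one, norm_one, one_pow]; exact hρ1
  have hcont : ContinuousOn (KF a v) K := by
    unfold KF
    refine ContinuousOn.sub ?_ ?_
    · refine continuousOn_finsetSum _ fun i _ => ?_
      refine ContinuousOn.mul continuousOn_const ?_
      refine ContinuousOn.log (continuous_nsq_mulVec (v i)).continuousOn fun g hg => ?_
      exact (nsq_pos (mulVec_ne_zero' (hKd g hg) (h.ne_zero i))).ne'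
    · refine ContinuousOn.log hdc.continuousOn fun g hg => ?_
      have := norm_pos_iff.2 (hKd g hg)
      positivity
  obtain ⟨g, hgK, hmin⟩ := hKc.exists_isMinOn ⟨1, h1K⟩ hcont
  refine ⟨g, hKd g hgK, ?_⟩
  intro g' hg'
  -- scale `g'` so that its largest entry has norm `1`
  obtain ⟨p, hp⟩ := Finite.exists_max (fun p : Fin 3 × Fin 3 => ‖g' p.1 p.2‖)
  have hs : 0 < ‖g' p.1 p.2‖ := by
    by_contra hcon
    have h0 : ‖g' p.1 p.2‖ = 0 := le_antisymm (not_lt.1 hcon) (norm_nonneg _)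
    apply hg'
    have : g' = 0 := by
      ext r s
      have := hp (r, s)
      simp only at this
      rw [h0] at this
      simpa using this
    rw [this, Matrix.det_zero]
  set s := ‖g' p.1 p.2‖ with hsdef
  set g'' : Matrix (Fin 3) (Fin 3) 𝕜 := ((s⁻¹ : ℝ) : 𝕜) • g' with hg''
  have hn : ∀ r t, ‖g'' r t‖ = s⁻¹ * ‖g' r t‖ := by
    intro r t
    rw [hg'', Matrix.smul_apply, smul_eq_mul, norm_mul, RCLike.norm_ofReal,
      abs_of_pos (inv_pos.2 hs)]
  have hd'' : g''.det ≠ 0 := by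
    rw [hg'', Matrix.det_smul]
    refine mul_ne_zero (pow_ne_zero _ ?_) hg'
    exact_mod_cast (inv_pos.2 hs).ne'
  have hKF : KF a v g'' = KF a v g' := KF_smul h g' hg' _ (inv_pos.2 hs)
  rw [← hKF]
  by_cases hle : KF a v g'' ≤ KF a v 1
  · have hmem : g'' ∈ K := by
      refine ⟨fun r t => ?_, hlow g'' hd'' ⟨p.1, p.2, ?_⟩ hle⟩
      · rw [hn, inv_mul_le_one₀ hs]; exact hp (r, t)
      · rw [hn]; exact inv_mul_cancel₀ hs.ne'
    exact hmin hmem
  · have h1 := hmin h1K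
    simp only [Set.mem_ofPred_eq] at h1
    linarith [not_le.1 hle]

/-- the variation matrix `1 + ε u u*` -/
noncomputable def pm (ε : ℝ) (u : Fin 3 → 𝕜) : Matrix (Fin 3) (Fin 3) 𝕜 :=
  fun r s => (if r = s then 1 else 0) + (ε : 𝕜) * (u r * conj (u s))

lemma pm_det (ε : ℝ) (u : Fin 3 → 𝕜) (hu : nsq u = 1) : (pm ε u).det = ((1 + ε : ℝ) : 𝕜) := by
  have h1 : ip u u = 1 := by rw [ip_self, hu]; simp
  rw [Matrix.det_fin_three]
  simp only [ip, Fin.sum_univ_three] at h1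
  simp only [pm]
  simp
  linear_combination (ε : 𝕜) * h1

lemma pm_mulVec (ε : ℝ) (u x : Fin 3 → 𝕜) : pm ε u *ᵥ x = x + ((ε : 𝕜) * ip u x) • u := by
  ext r
  simp only [Matrix.mulVec, dotProduct, pm, ip, Fin.sum_univ_three, Pi.add_apply, Pi.smul_apply,
    smul_eq_mul]
  fin_cases r <;> simp <;> ring

lemma nsq_pm (ε : ℝ) (u x : Fin 3 → 𝕜) (hu : nsq u = 1) :
    nsq (pm ε u *ᵥ x) = nsq x + ((1 + ε) ^ 2 - 1) * ‖ip u x‖ ^ 2 := by
  apply RCLike.ofReal_injective (K := 𝕜)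
  have h1 : ip u u = 1 := by rw [ip_self, hu]; simp
  have h2 : ((‖ip u x‖ ^ 2 : ℝ) : 𝕜) = ip u x * conj (ip u x) := by
    rw [RCLike.mul_conj]; push_cast; rfl
  rw [RCLike.ofReal_add, RCLike.ofReal_mul, h2, ← ip_self, ← ip_self, pm_mulVec]
  push_cast
  simp only [ip, Fin.sum_univ_three, map_add, map_mul, RCLike.conj_conj, Pi.add_apply,
    Pi.smul_apply, smul_eq_mul, RCLike.conj_ofReal] at h1 ⊢
  linear_combination ((ε : 𝕜) ^ 2 * (conj (u 0) * x 0 + conj (u 1) * x 1 + conj (u 2) * x 2) *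
    (u 0 * conj (x 0) + u 1 * conj (x 1) + u 2 * conj (x 2))) * h1

lemma ip_sq_le (u x : Fin 3 → 𝕜) (hu : nsq u = 1) : ‖ip u x‖ ^ 2 ≤ nsq x := by
  have h := nsq_pm (-1) u x hu
  have h1 := nsq_nonneg (pm (-1) u *ᵥ x)
  rw [h] at h1
  norm_num at h1
  linarith

/-- **Balanced position.** -/
theorem Stab.balanced (h : Stab a v) : ∃ g : Matrix (Fin 3) (Fin 3) 𝕜, g.det ≠ 0 ∧
    ∀ u : Fin 3 → 𝕜, nsq u = 1 → ∑ i, a i * (‖ip u (g *ᵥ v i)‖ ^ 2 / nsq (g *ᵥ v i)) = 1 := by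
  obtain ⟨g, hg, hmin⟩ := h.exists_min
  refine ⟨g, hg, fun u hu => ?_⟩
  set w : ι → Fin 3 → 𝕜 := fun i => g *ᵥ v i with hw
  have hwp : ∀ i, 0 < nsq (w i) := fun i => nsq_pos (mulVec_ne_zero' hg (h.ne_zero i))
  set q : ι → ℝ := fun i => ‖ip u (w i)‖ ^ 2 / nsq (w i) with hq
  have hq0 : ∀ i, 0 ≤ q i := fun i => div_nonneg (by positivity) (hwp i).le
  have hq1 : ∀ i, q i ≤ 1 := fun i => (div_le_one (hwp i)).2 (ip_sq_le u (w i) hu)
  set φ : ℝ → ℝ := fun ε => ∑ i, a i * Real.log (1 + ((1 + ε) ^ 2 - 1) * q i) -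
    2 * Real.log (1 + ε) with hφ
  have hpos : ∀ ε : ℝ, -1 < ε → ∀ i, 0 < 1 + ((1 + ε) ^ 2 - 1) * q i := by
    intro ε hε i
    have h1 : 0 < (1 + ε) ^ 2 := by have : 0 < 1 + ε := by linarith
                                    positivity
    nlinarith [hq0 i, hq1 i, mul_nonneg h1.le (hq0 i)]
  have hφ0 : ∀ ε : ℝ, -1 < ε → 0 ≤ φ ε := by
    intro ε hε
    have he : 0 < 1 + ε := by linarith
    have hdet : (pm ε u * g).det ≠ 0 := by
      rw [Matrix.det_mul, pm_det ε u hu]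
      refine mul_ne_zero ?_ hg
      exact_mod_cast he.ne'
    have h1 := hmin (pm ε u * g) hdet
    unfold KF at h1
    have h2 : ∀ i, Real.log (nsq ((pm ε u * g) *ᵥ v i)) = Real.log (nsq (w i)) +
        Real.log (1 + ((1 + ε) ^ 2 - 1) * q i) := by
      intro i
      rw [← Matrix.mulVec_mulVec, nsq_pm ε u _ hu, ← Real.log_mul (hwp i).ne' (hpos ε hε i).ne']
      congr 1
      simp only [hq]
      have := (hwp i).ne'
      field_simp
      simp only [hw]
    have h3 : Real.log (‖(pm ε u * g).det‖ ^ 2) = 2 * Real.log (1 + ε) + Real.log (‖g.det‖ ^ 2) := by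
      have hgd : 0 < ‖g.det‖ := norm_pos_iff.2 hg
      rw [Matrix.det_mul, pm_det ε u hu, norm_mul, RCLike.norm_ofReal, abs_of_pos he, mul_pow,
        Real.log_mul (by positivity) (by positivity), Real.log_pow]
      push_cast; ring
    rw [h3] at h1
    simp only [h2, mul_add, Finset.sum_add_distrib] at h1
    simp only [hφ]
    have h4 : ∑ i, a i * Real.log (nsq (g *ᵥ v i)) = ∑ i, a i * Real.log (nsq (w i)) := rfl
    linarith
  have hφz : φ 0 = 0 := by simp [hφ]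
  have hloc : IsLocalMin φ 0 := by
    filter_upwards [Ioi_mem_nhds (show (-1:ℝ) < 0 by norm_num)] with ε hε
    rw [hφz]; exact hφ0 ε hε
  have hder : HasDerivAt φ (∑ i, a i * (2 * q i) - 2 * 1) 0 := by
    have hbase : HasDerivAt (fun ε : ℝ => 1 + ε) 1 0 := by
      simpa using (hasDerivAt_id (0:ℝ)).const_add 1
    refine HasDerivAt.sub ?_ ?_
    · refine HasDerivAt.fun_sum fun i _ => ?_
      refine HasDerivAt.const_mul (a i) ?_
      have h1 : HasDerivAt (fun ε : ℝ => 1 + ((1 + ε) ^ 2 - 1) * q i) (2 * q i) 0 := by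
        have h2 := (((hbase.pow 2).sub_const 1).mul_const (q i)).const_add 1
        simpa using h2
      have h3 := h1.log (by simp)
      simpa using h3
    · refine HasDerivAt.const_mul 2 ?_
      have h3 := hbase.log (by norm_num)
      simpa using h3
  have h0 := hloc.hasDerivAt_eq_zero hder
  have h5 : ∑ i, a i * (2 * q i) = 2 * ∑ i, a i * q i := by
    rw [Finset.mul_sum]
    exact Finset.sum_congr rfl fun i _ => by ring
  rw [h5] at h0
  have h6 : ∑ i, a i * q i = 1 := by linarith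
  exact h6

/-- **Balanced position**, with unit vectors. -/
theorem Stab.frame (h : Stab a v) : ∃ e : ι → Fin 3 → 𝕜, (∀ i, nsq (e i) = 1) ∧
    (∀ i j k, dt (e i) (e j) (e k) = 0 ↔ dt (v i) (v j) (v k) = 0) ∧
    ∀ u : Fin 3 → 𝕜, nsq u = 1 → ∑ i, a i * ‖ip u (e i)‖ ^ 2 = 1 := by
  obtain ⟨g, hg, hfr⟩ := h.balanced
  have hwp : ∀ i, 0 < nsq (g *ᵥ v i) := fun i => nsq_pos (mulVec_ne_zero' hg (h.ne_zero i))
  set c : ι → ℝ := fun i => (Real.sqrt (nsq (g *ᵥ v i)))⁻¹ with hc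
  have hcp : ∀ i, 0 < c i := fun i => inv_pos.2 (Real.sqrt_pos.2 (hwp i))
  have hcsq : ∀ i, c i ^ 2 = (nsq (g *ᵥ v i))⁻¹ := by
    intro i
    simp only [hc]
    rw [inv_pow, Real.sq_sqrt (hwp i).le]
  refine ⟨fun i => ((c i : ℝ) : 𝕜) • (g *ᵥ v i), ?_, ?_, ?_⟩
  · intro i
    rw [nsq_smul, RCLike.norm_ofReal, abs_of_pos (hcp i), hcsq]
    exact inv_mul_cancel₀ (hwp i).ne'
  · intro i j k
    have h1 : dt (((c i : ℝ) : 𝕜) • (g *ᵥ v i)) (((c j : ℝ) : 𝕜) • (g *ᵥ v j))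
        (((c k : ℝ) : 𝕜) • (g *ᵥ v k)) = ((c i : ℝ) : 𝕜) * (c j : ℝ) * (c k : ℝ) * g.det *
        dt (v i) (v j) (v k) := by
      have h2 := dt_mul g (v i) (v j) (v k)
      rw [dt_eq] at h2 ⊢
      simp only [Pi.smul_apply, smul_eq_mul]
      linear_combination (((c i : ℝ) : 𝕜) * (c j : ℝ) * (c k : ℝ)) * h2
    simp only [h1]
    have h3 : ((c i : ℝ) : 𝕜) * (c j : ℝ) * (c k : ℝ) * g.det ≠ 0 := by
      refine mul_ne_zero (mul_ne_zero (mul_ne_zero ?_ ?_) ?_) hg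
      · exact_mod_cast (hcp i).ne'
      · exact_mod_cast (hcp j).ne'
      · exact_mod_cast (hcp k).ne'
    exact mul_eq_zero_iff_left h3
  · intro u hu
    rw [← hfr u hu]
    refine Finset.sum_congr rfl fun i _ => ?_
    rw [ip_smul_right, norm_mul, RCLike.norm_ofReal, abs_of_pos (hcp i), mul_pow, hcsq]
    rw [div_eq_inv_mul]

end FSH
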