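import Pool.Agent.FSH.Bridge

/-!
# The three theorems
-/

open scoped BigOperators ComplexConjugate
open Matrix

namespace FSH

variable {A : Finset (Submodule ℂ (Fin 3 → ℂ))}

open Classical in
theorem quadruple_main (hA : IsLines A) (hH : Hirzebruch A) (η : ℝ)
    (hη : ∀ p ∈ points A, ((through A p).card : ℝ) ≤ η * A.card) :
    ((A.offDiag.filter fun q => (through A (q.1 ⊓ q.2)).card ≠ 4).card : ℝ) ≤
      12 * (40 * η) ^ ((1 : ℝ) / 25) * (A.card : ℝ) ^ 2 := by
  obtain ⟨v, hPI, hv⟩ := exists_normals hA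
  have hHZ := HZ_of_Hirzebruch hv hH
  rw [card_pairs hv (fun r => r ≠ 4)]
  rcases A.eq_empty_or_nonempty with h0 | hne
  · subst h0
    have : np v (fun r => r ≠ 4) = 0 := by
      unfold np
      rw [Finset.card_eq_zero, Finset.filter_eq_empty_iff]
      rintro ⟨⟨H, hH'⟩, _⟩ _
      simp at hH'
    rw [this]; simp
  · obtain ⟨H, hHA⟩ := hne
    have hpt : (points A).Nonempty := by
      by_contra hcon
      rw [Finset.not_nonempty_iff_eq_empty] at hcon
      have h1 := hH H hHA
      rw [hcon] at h1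
      simp at h1
    obtain ⟨p, hp⟩ := hpt
    have hcard : (0:ℝ) < A.card := by
      have : 0 < A.card := Finset.card_pos.2 ⟨H, hHA⟩
      exact_mod_cast this
    have hη0 : 0 ≤ η := by
      by_contra hcon
      have h1 := hη p hp
      have h2 : (0:ℝ) ≤ (through A p).card := Nat.cast_nonneg _
      have h3 : η * A.card < 0 := mul_neg_of_neg_of_pos (not_le.1 hcon) hcard
      linarith
    have h := np_main hPI hHZ hη0 (fun i j hij => by
      rw [Fintype.card_coe, ← flt_eq hv hij, card_flt]
      refine hη _ ?_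
      rw [points, Finset.mem_image]
      exact ⟨(i.1, j.1), Finset.mem_offDiag.2 ⟨i.2, j.2, fun h => hij (Subtype.ext h)⟩, rfl⟩)
    rw [Fintype.card_coe] at h
    exact h

open Classical in
theorem double_main (hA : IsLines A) (hH : Hirzebruch A) :
    (((points A).filter fun p => (through A p).card = 2).card : ℝ) ≤
      (A.card : ℝ) * (1 + Real.sqrt (4 * A.card - 3)) / 4 := by
  obtain ⟨v, hPI, hv⟩ := exists_normals hA
  have hHZ := HZ_of_Hirzebruch hv hH
  have h := np_two hPI hHZ
  rw [Fintype.card_coe] at h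
  have h1 : (np v (fun r => r = 2) : ℝ) =
      2 * (((points A).filter fun p => (through A p).card = 2).card : ℝ) := by
    have e1 : (np v (fun r => r = 2) : ℝ) =
        ∑ q ∈ (Finset.univ : Finset {H // H ∈ A}).offDiag,
          (if (flat v q.1 q.2).card = 2 then (1:ℝ) else 0) := by
      unfold np
      rw [Finset.sum_ite, Finset.sum_const_zero, add_zero, Finset.sum_const, nsmul_eq_mul, mul_one]
    rw [e1, ← hPI.sum_flats (fun q => if (flat v q.1 q.2).card = 2 then (1:ℝ) else 0)]
    have e2 : ∀ P ∈ flats v, ∑ q ∈ P.offDiag, (if (flat v q.1 q.2).card = 2 then (1:ℝ) else 0) =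
        (if P.card = 2 then (2:ℝ) else 0) := by
      intro P hP
      have e3 : ∀ q ∈ P.offDiag, (if (flat v q.1 q.2).card = 2 then (1:ℝ) else 0) =
          (if P.card = 2 then (1:ℝ) else 0) := by
        intro q hq
        rw [Finset.mem_offDiag] at hq
        rw [← hPI.flat_unique hP hq.1 hq.2.1 hq.2.2]
      rw [Finset.sum_congr rfl e3, Finset.sum_const, nsmul_eq_mul, card_offDiag_real]
      by_cases hc : P.card = 2
      · rw [if_pos hc, if_pos hc, hc]; norm_num
      · rw [if_neg hc, if_neg hc, mul_zero]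
    rw [Finset.sum_congr rfl e2, sum_flats_eq hv (fun P => if P.card = 2 then (2:ℝ) else 0)]
    simp only [card_flt]
    rw [Finset.sum_ite, Finset.sum_const_zero, add_zero, Finset.sum_const, nsmul_eq_mul, mul_comm]
  rw [h1] at h
  linarith

open Classical in
theorem weights_main (hA : IsLines A) (a : Submodule ℂ (Fin 3 → ℂ) → ℝ) (ha : FlatWeights A a)
    (η : ℝ) (hη : ∀ p ∈ points A, weightAt A a p ≤ η) :
    ∑ q ∈ A.offDiag.filter (fun q => (through A (q.1 ⊓ q.2)).card ≤ 3), a q.1 * a q.2 ≤
      9 * (1 + 3 * ((A.image a).card : ℝ) ^ 3) * (14 * η) ^ ((1 : ℝ) / 25) := by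
  obtain ⟨v, hPI, hv⟩ := exists_normals hA
  set a' : {H // H ∈ A} → ℝ := fun k => a k.1 with ha'
  have hpt : (points A).Nonempty := by
    by_contra hcon
    rw [Finset.not_nonempty_iff_eq_empty] at hcon
    have h1 := ha.euler
    rw [hcon] at h1
    simp at h1
  have hpos : ∀ k : {H // H ∈ A}, 0 < a' k := fun k => ha.pos k.1 k.2
  have hη0 : 0 ≤ η := by
    obtain ⟨p, hp⟩ := hpt
    refine le_trans ?_ (hη p hp)
    unfold weightAt
    refine Finset.sum_nonneg fun H hH => ?_
    rw [through, Finset.mem_filter] at hH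
    exact (ha.pos H hH.1).le
  have hsum : ∑ k, a' k = 3 := by
    rw [← ha.sum]
    exact Finset.sum_coe_sort A a
  have hflat : ∀ i j : {H // H ∈ A}, i ≠ j → ∑ k ∈ flat v i j, a' k ≤ η := by
    intro i j hij
    rw [← flt_eq hv hij, sum_flt (A := A) (i.1 ⊓ j.1) a]
    refine hη _ ?_
    rw [points, Finset.mem_image]
    exact ⟨(i.1, j.1), Finset.mem_offDiag.2 ⟨i.2, j.2, fun h => hij (Subtype.ext h)⟩, rfl⟩
  have hpairs := sum_pairs hv (fun r => r ≤ 3) (fun H K => a H * a K)
  rw [hpairs]
  set M : ℝ := ((A.image a).card : ℝ) with hM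
  have hM0 : 0 ≤ M := Nat.cast_nonneg _
  rcases le_or_gt (1 / 14) η with hbig | hsmall
  · have h1 : (1:ℝ) ≤ (14 * η) ^ ((1:ℝ) / 25) := Real.one_le_rpow (by linarith) (by norm_num)
    have h2 : ∑ q ∈ (Finset.univ : Finset {H // H ∈ A}).offDiag.filter
        (fun q => (flat v q.1 q.2).card ≤ 3), a q.1.1 * a q.2.1 ≤ 9 := by
      have h3 := sq_sum_eq (Finset.univ : Finset {H // H ∈ A}) a'
      rw [hsum] at h3
      have h4 : ∑ q ∈ (Finset.univ : Finset {H // H ∈ A}).offDiag.filter
          (fun q => (flat v q.1 q.2).card ≤ 3), a q.1.1 * a q.2.1 ≤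
          ∑ q ∈ (Finset.univ : Finset {H // H ∈ A}).offDiag, a' q.1 * a' q.2 :=
        Finset.sum_le_sum_of_subset_of_nonneg (Finset.filter_subset _ _) fun q _ _ =>
          mul_nonneg (hpos _).le (hpos _).le
      have h5 : 0 ≤ ∑ k, a' k ^ 2 := Finset.sum_nonneg fun k _ => sq_nonneg _
      linarith
    have h6 : (1:ℝ) ≤ 1 + 3 * M ^ 3 := by
      have := pow_nonneg hM0 3
      linarith
    have h7 : (1:ℝ) * 1 ≤ (1 + 3 * M ^ 3) * (14 * η) ^ ((1:ℝ) / 25) :=
      mul_le_mul h6 h1 zero_le_one (by linarith)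
    linarith
  · have hex : ∀ i : {H // H ∈ A}, ∃ j, j ≠ i := by
      intro i
      by_contra hcon
      push Not at hcon
      obtain ⟨p, hp⟩ := hpt
      rw [points, Finset.mem_image] at hp
      obtain ⟨q, hq, _⟩ := hp
      rw [Finset.mem_offDiag] at hq
      have e1 := hcon ⟨q.1, hq.1⟩
      have e2 := hcon ⟨q.2, hq.2.1⟩
      exact hq.2.2 (congrArg Subtype.val (e1.trans e2.symm))
    have hst : Stab a' v := by
      refine ⟨hpos, hsum, fun i => ?_, fun i j hij => ?_⟩
      · obtain ⟨j, hj⟩ := hex i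
        have h1 := hflat i j hj.symm
        have h2 : a' i ≤ ∑ k ∈ flat v i j, a' k :=
          Finset.single_le_sum (f := a') (fun k _ => (hpos k).le) (left_mem_flat v i j)
        linarith
      · have h1 := hflat i j hij
        have h3 : ∑ k, (if dt (v i) (v j) (v k) = 0 then a' k else 0) =
            ∑ k ∈ flat v i j, a' k := by
          rw [flat, Finset.sum_filter]
        calc _ = ∑ k ∈ flat v i j, a' k := by
              rw [← h3]
          _ < 2 := by linarith
    have heq : ∑ P ∈ flats v, cw a' P = 3 := by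
      rw [sum_flats_eq hv (fun P => cw a' P)]
      rw [← ha.euler]
      exact Finset.sum_congr rfl fun p _ => cw_flt a p
    have h2 := dbl_le hst heq hflat
    have h3 := tri_le hst heq hflat
    have himg : (Finset.univ.image a').card = (A.image a).card := by
      congr 1
      ext x
      simp only [Finset.mem_image, Finset.mem_univ, true_and, ha']
      constructor
      · rintro ⟨k, rfl⟩; exact ⟨k.1, k.2, rfl⟩
      · rintro ⟨H, hH, rfl⟩; exact ⟨⟨H, hH⟩, rfl⟩
    rw [himg] at h3
    have hsplit : ∑ q ∈ (Finset.univ : Finset {H // H ∈ A}).offDiag.filter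
        (fun q => (flat v q.1 q.2).card ≤ 3), a q.1.1 * a q.2.1 ≤
        pr v a' (fun r => r = 2) + pr v a' (fun r => r = 3) := by
      unfold pr
      rw [Finset.sum_filter, Finset.sum_filter, Finset.sum_filter, ← Finset.sum_add_distrib]
      refine Finset.sum_le_sum fun q hq => ?_
      rw [Finset.mem_offDiag] at hq
      have hc : 2 ≤ (flat v q.1 q.2).card := two_le_card hPI (mem_flats.2 ⟨q.1, q.2, hq.2.2, rfl⟩)
      have hp : 0 ≤ a' q.1 * a' q.2 := mul_nonneg (hpos _).le (hpos _).le
      by_cases h3c : (flat v q.1 q.2).card ≤ 3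
      · rw [if_pos h3c]
        by_cases h2c : (flat v q.1 q.2).card = 2
        · rw [if_pos h2c, if_neg (by omega)]; simp [ha']
        · rw [if_neg h2c, if_pos (by omega)]; simp [ha']
      · rw [if_neg h3c, if_neg (by omega), if_neg (by omega)]; simp
    have hmono : (40 * η / 3) ^ ((1:ℝ) / 25) ≤ (14 * η) ^ ((1:ℝ) / 25) :=
      Real.rpow_le_rpow (by positivity) (by linarith) (by norm_num)
    have hfin : pr v a' (fun r => r = 2) + pr v a' (fun r => r = 3) ≤
        9 * (1 + 3 * M ^ 3) * (40 * η / 3) ^ ((1:ℝ) / 25) := by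
      rw [hM]; linarith
    refine hsplit.trans (hfin.trans ?_)
    refine mul_le_mul_of_nonneg_left hmono ?_
    have := pow_nonneg hM0 3
    positivity

end FSH
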