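import Pool.Agent.FSH.Flats
import Pool.Agent.FSH.Count

/-!
# The equality case: every plane carries a tight frame
-/

open scoped BigOperators ComplexConjugate
open Matrix

namespace FSH

variable {𝕜 : Type*} [RCLike 𝕜] {ι : Type*} [Fintype ι] [DecidableEq ι]

/-- the local contribution of a multiple point -/
noncomputable def cw (a : ι → ℝ) (P : Finset ι) : ℝ :=
  if P.card = 2 then (∑ q ∈ P.offDiag, a q.1 * a q.2) / 2 else (∑ k ∈ P, a k) ^ 2 / 4

omit [Fintype ι] in
lemma sum_sum_eq_diag (P : Finset ι) (f : ι → ι → ℝ) :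
    ∑ k ∈ P, ∑ l ∈ P, f k l = ∑ k ∈ P, f k k + ∑ q ∈ P.offDiag, f q.1 q.2 := by
  rw [← Finset.sum_product', ← Finset.diag_union_offDiag,
    Finset.sum_union (Finset.disjoint_diag_offDiag P)]
  congr 1
  rw [Finset.sum_diag]

omit [Fintype ι] in
lemma sq_sum_eq (P : Finset ι) (a : ι → ℝ) :
    (∑ k ∈ P, a k) ^ 2 = ∑ k ∈ P, a k ^ 2 + ∑ q ∈ P.offDiag, a q.1 * a q.2 := by
  have h := sum_sum_eq_diag P (fun k l => a k * a l)
  rw [← Finset.sum_mul_sum] at h
  rw [sq, h]
  congr 1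
  exact Finset.sum_congr rfl fun k _ => by ring

variable {a : ι → ℝ} {v : ι → Fin 3 → 𝕜}

omit [DecidableEq ι] in
lemma Stab.PI (h : Stab a v) : PI v := by
  intro i j hij h0
  obtain ⟨k, hk⟩ := h.exists_dt hij
  apply hk
  rw [dt_eq_dot, h0, zero_dotProduct]

/-- **Equality case.** -/
theorem Stab.tight (h : Stab a v) (heq : ∑ P ∈ flats v, cw a P = 3) :
    ∃ e : ι → Fin 3 → 𝕜, (∀ i, nsq (e i) = 1) ∧
      (∀ i j k, dt (e i) (e j) (e k) = 0 ↔ dt (v i) (v j) (v k) = 0) ∧
      (∀ i j, i ≠ j → (flat v i j).card = 2 → ‖ip (e i) (e j)‖ ^ 2 = 0) ∧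
      (∀ i j, i ≠ j → (flat v i j).card ≠ 2 → ∀ l ∈ flat v i j,
        ∑ k ∈ flat v i j, a k * ‖ip (e k) (e l)‖ ^ 2 = (∑ k ∈ flat v i j, a k) / 2) := by
  obtain ⟨e, he, hdt, hfr⟩ := h.frame
  refine ⟨e, he, hdt, ?_⟩
  have hPI := h.PI
  set X : ι → ι → ℝ := fun k l => ‖ip (e k) (e l)‖ ^ 2 with hX
  have hXd : ∀ k, X k k = 1 := by
    intro k
    simp only [hX]
    rw [ip_self, he]; simp
  have hX0 : ∀ k l, 0 ≤ X k l := fun k l => by simp only [hX]; positivity
  set Δ : Finset ι → ℝ := fun P => ∑ q ∈ P.offDiag, a q.1 * a q.2 * (X q.1 q.2 - 1) + 2 * cw a P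
    with hΔ
  -- total
  have htot : ∑ P ∈ flats v, Δ P = 0 := by
    simp only [hΔ]
    rw [Finset.sum_add_distrib, ← Finset.mul_sum, heq,
      hPI.sum_flats (fun q => a q.1 * a q.2 * (X q.1 q.2 - 1))]
    have h1 : ∑ k, ∑ l, a k * a l * X k l = 3 := by
      rw [← h.sum]
      refine Finset.sum_congr rfl fun k _ => ?_
      have := hfr (e k) (he k)
      calc ∑ l, a k * a l * X k l = a k * ∑ l, a l * ‖ip (e k) (e l)‖ ^ 2 := by
            rw [Finset.mul_sum]; exact Finset.sum_congr rfl fun l _ => by simp only [hX]; ring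
        _ = a k := by rw [this, mul_one]
    have h2 := sum_sum_eq_diag Finset.univ (fun k l => a k * a l * X k l)
    rw [h1] at h2
    have h3 := sq_sum_eq Finset.univ a
    rw [h.sum] at h3
    have h4 : ∑ k, a k * a k * X k k = ∑ k, a k ^ 2 :=
      Finset.sum_congr rfl fun k _ => by rw [hXd]; ring
    rw [h4] at h2
    have h5 : ∑ q ∈ (Finset.univ : Finset ι).offDiag, a q.1 * a q.2 * (X q.1 q.2 - 1) =
        ∑ q ∈ (Finset.univ : Finset ι).offDiag, a q.1 * a q.2 * X q.1 q.2 -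
        ∑ q ∈ (Finset.univ : Finset ι).offDiag, a q.1 * a q.2 := by
      rw [← Finset.sum_sub_distrib]
      exact Finset.sum_congr rfl fun q _ => by ring
    rw [h5]; linarith
  have h2case : ∀ P, P.card = 2 → Δ P = ∑ q ∈ P.offDiag, a q.1 * a q.2 * X q.1 q.2 := by
    intro P hc
    simp only [hΔ, cw, if_pos hc]
    have : ∑ q ∈ P.offDiag, a q.1 * a q.2 * (X q.1 q.2 - 1) =
        ∑ q ∈ P.offDiag, a q.1 * a q.2 * X q.1 q.2 - ∑ q ∈ P.offDiag, a q.1 * a q.2 := by
      rw [← Finset.sum_sub_distrib]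
      exact Finset.sum_congr rfl fun q _ => by ring
    rw [this]; ring
  have hncase : ∀ P, P.card ≠ 2 → Δ P = ∑ k ∈ P, ∑ l ∈ P, a k * a l * ‖ip (e k) (e l)‖ ^ 2 -
      (∑ k ∈ P, a k) ^ 2 / 2 := by
    intro P hc
    simp only [hΔ, cw, if_neg hc]
    have h1 := sum_sum_eq_diag P (fun k l => a k * a l * X k l)
    have h2 := sq_sum_eq P a
    have h3 : ∑ q ∈ P.offDiag, a q.1 * a q.2 * (X q.1 q.2 - 1) =
        ∑ q ∈ P.offDiag, a q.1 * a q.2 * X q.1 q.2 - ∑ q ∈ P.offDiag, a q.1 * a q.2 := by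
      rw [← Finset.sum_sub_distrib]
      exact Finset.sum_congr rfl fun q _ => by ring
    have h4 : ∑ k ∈ P, a k * a k * X k k = ∑ k ∈ P, a k ^ 2 :=
      Finset.sum_congr rfl fun k _ => by rw [hXd]; ring
    rw [h4] at h1
    have h5 : ∑ k ∈ P, ∑ l ∈ P, a k * a l * ‖ip (e k) (e l)‖ ^ 2 =
      ∑ k ∈ P, ∑ l ∈ P, a k * a l * X k l := rfl
    rw [h3, h5, h1]; linarith
  have hcore : ∀ i j, i ≠ j → ((∑ k ∈ flat v i j, a k) ^ 2 / 2 ≤
      ∑ k ∈ flat v i j, ∑ l ∈ flat v i j, a k * a l * ‖ip (e k) (e l)‖ ^ 2 ∧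
      (∑ k ∈ flat v i j, ∑ l ∈ flat v i j, a k * a l * ‖ip (e k) (e l)‖ ^ 2 =
        (∑ k ∈ flat v i j, a k) ^ 2 / 2 →
      ∀ l ∈ flat v i j, ∑ k ∈ flat v i j, a k * ‖ip (e k) (e l)‖ ^ 2 =
        (∑ k ∈ flat v i j, a k) / 2)) := by
    intro i j hij
    have hne : e i ⨯₃ e j ≠ 0 := by
      intro h0
      obtain ⟨k, hk⟩ := h.exists_dt hij
      apply hk
      rw [← hdt, dt_eq_dot, h0, zero_dotProduct]
    obtain ⟨w, hw, hwz⟩ := exists_normal hne
    refine tight_core (flat v i j) a e he w hw fun k hk => hwz _ ?_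
    rw [hdt]; exact mem_flat.1 hk
  have hnonneg : ∀ P ∈ flats v, 0 ≤ Δ P := by
    intro P hP
    obtain ⟨i, j, hij, rfl⟩ := mem_flats.1 hP
    by_cases hc : (flat v i j).card = 2
    · rw [h2case _ hc]
      exact Finset.sum_nonneg fun q _ =>
        mul_nonneg (mul_nonneg (h.pos _).le (h.pos _).le) (hX0 _ _)
    · rw [hncase _ hc]
      linarith [(hcore i j hij).1]
  have hzero := (Finset.sum_eq_zero_iff_of_nonneg hnonneg).1 htot
  refine ⟨?_, ?_⟩
  · intro i j hij hc
    have h1 := hzero _ (mem_flats.2 ⟨i, j, hij, rfl⟩)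
    rw [h2case _ hc] at h1
    have h2 := (Finset.sum_eq_zero_iff_of_nonneg (fun q _ =>
      mul_nonneg (mul_nonneg (h.pos _).le (h.pos _).le) (hX0 _ _))).1 h1 (i, j)
      (Finset.mem_offDiag.2 ⟨left_mem_flat v i j, right_mem_flat v i j, hij⟩)
    have h3 : a i * a j ≠ 0 := mul_ne_zero (h.pos i).ne' (h.pos j).ne'
    exact (mul_eq_zero.1 h2).resolve_left h3
  · intro i j hij hc
    have h1 := hzero _ (mem_flats.2 ⟨i, j, hij, rfl⟩)
    rw [hncase _ hc] at h1
    exact (hcore i j hij).2 (by linarith)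

lemma general_of_lt {x : Fin 5 → Fin 3 → 𝕜} (h : ∀ a b c, a < b → b < c → dt (x a) (x b) (x c) ≠ 0) :
    ∀ a b c, a ≠ b → a ≠ c → b ≠ c → dt (x a) (x b) (x c) ≠ 0 := by
  intro a b c hab hac hbc
  rcases lt_or_gt_of_ne hab with h1 | h1 <;> rcases lt_or_gt_of_ne hac with h2 | h2 <;>
    rcases lt_or_gt_of_ne hbc with h3 | h3
  · exact h a b c h1 h3
  · have := h a c b h2 h3
    rw [dt_swap23]; exact neg_ne_zero.2 this
  · exact absurd (h1.trans h3) (not_lt.2 h2.le)
  · have := h c a b h2 h1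
    rw [dt_rot]; exact this
  · have := h b a c h1 h2
    rw [dt_swap12]; exact neg_ne_zero.2 this
  · exact absurd (h2.trans h3) (not_lt.2 h1.le)
  · have := h b c a h3 h2
    rw [dt_rot, dt_rot]; exact this
  · have := h c b a h3 h1
    rw [dt_swap23, dt_rot] at this
    rw [dt_rot, dt_rot]
    intro h0
    apply this
    rw [dt_rot, dt_rot] at h0
    rw [dt_rot, dt_rot]
    first
      | (rw [h0, neg_zero])
      | (rw [dt_swap12, h0]; simp)
      | (rw [dt_swap23, h0]; simp)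

/-- **Fixed angles are rare.** -/
theorem density (h : Stab a v) {e : ι → Fin 3 → 𝕜} (he : ∀ i, nsq (e i) = 1)
    (hdt : ∀ i j k, dt (e i) (e j) (e k) = 0 ↔ dt (v i) (v j) (v k) = 0) {η : ℝ}
    (hη : ∀ i j, i ≠ j → ∑ k ∈ flat v i j, a k ≤ η) {c : ℝ} (hc : c ≠ 1 / 3) (R : ι → ι → Prop)
    [DecidableRel R] (hR : ∀ i j, R i j → ‖ip (e i) (e j)‖ ^ 2 = c) :
    ∑ i, ∑ j, a i * a j * (if R i j then (1:ℝ) else 0) ≤ 9 * (40 * η / 3) ^ ((1:ℝ) / 25) := by
  classical
  have hai : ∀ i, a i ≤ η := by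
    intro i
    obtain ⟨j, hj⟩ := h.exists_ne i
    refine le_trans ?_ (hη i j hj.symm)
    exact Finset.single_le_sum (f := a) (fun k _ => (h.pos k).le) (left_mem_flat v i j)
  have hη0 : 0 ≤ η := by
    obtain ⟨i⟩ := h.nonempty
    exact (h.pos i).le.trans (hai i)
  set b : ι → ℝ := fun i => a i / 3 with hb
  have hb0 : ∀ i, 0 ≤ b i := fun i => by simp only [hb]; linarith [h.pos i]
  have hb1 : ∑ i, b i = 1 := by
    simp only [hb]; rw [← Finset.sum_div, h.sum]; norm_num
  have hθ : ∑ x, ∑ y, ∑ z, b x * b y * b z * (if dt (v x) (v y) (v z) = 0 then (1:ℝ) else 0) ≤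
      2 * η / 3 := by
    have h1 : ∀ x y, ∑ z, b x * b y * b z * (if dt (v x) (v y) (v z) = 0 then (1:ℝ) else 0) ≤
        b x * b y * ((if x = y then 1 else 0) + η / 3) := by
      intro x y
      have e1 : ∑ z, b x * b y * b z * (if dt (v x) (v y) (v z) = 0 then (1:ℝ) else 0) =
          b x * b y * ∑ z ∈ flat v x y, b z := by
        rw [Finset.mul_sum, flat, Finset.sum_filter]
        refine Finset.sum_congr rfl fun z _ => ?_
        split_ifs <;> simp
      rw [e1]
      refine mul_le_mul_of_nonneg_left ?_ (mul_nonneg (hb0 x) (hb0 y))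
      by_cases hxy : x = y
      · rw [if_pos hxy]
        calc ∑ z ∈ flat v x y, b z ≤ ∑ z, b z :=
              Finset.sum_le_sum_of_subset_of_nonneg (Finset.subset_univ _) fun z _ _ => hb0 z
          _ = 1 := hb1
          _ ≤ 1 + η / 3 := by linarith
      · rw [if_neg hxy, zero_add]
        simp only [hb]
        rw [← Finset.sum_div]
        have := hη x y hxy
        linarith
    calc _ ≤ ∑ x, ∑ y, b x * b y * ((if x = y then 1 else 0) + η / 3) :=
          Finset.sum_le_sum fun x _ => Finset.sum_le_sum fun y _ => h1 x y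
      _ = ∑ x, b x * b x + η / 3 := by
          have e2 : ∀ x, ∑ y, b x * b y * ((if x = y then 1 else 0) + η / 3) =
              b x * b x + b x * (η / 3) := by
            intro x
            simp only [mul_add, Finset.sum_add_distrib]
            congr 1
            · simp
            · rw [← Finset.sum_mul, ← Finset.mul_sum, hb1, mul_one]
          simp only [e2, Finset.sum_add_distrib]
          rw [← Finset.sum_mul, hb1, one_mul]
      _ ≤ ∑ x, b x * (η / 3) + η / 3 := by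
          gcongr with x _
          · exact hb0 x
          · simp only [hb]; linarith [hai x]
      _ = 2 * η / 3 := by rw [← Finset.sum_mul, hb1]; ring
  have hcount := count b hb0 hb1 (fun i j => if R i j then (1:ℝ) else 0)
    (fun i j => by by_cases hij : R i j <;> simp [hij])
    (fun x y z => dt (v x) (v y) (v z) = 0) (2 * η / 3) (by convert hθ) (by
      intro i j hall
      by_contra hcon
      push Not at hcon
      apply hc
      have hRall : ∀ p r, R (i p) (j r) := by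
        intro p r
        by_contra hn
        have := hall p r
        rw [if_neg hn] at this
        exact zero_ne_one this
      refine five_five (fun p => e (i p)) (fun p => e (j p)) (fun p => he _) (fun p => he _)
        (general_of_lt ?_) (general_of_lt ?_) c (fun p r => hR _ _ (hRall p r))
      · intro p q r hpq hqr h0
        exact hcon.1 p q r hpq hqr ((hdt _ _ _).1 h0)
      · intro p q r hpq hqr h0
        exact hcon.2 p q r hpq hqr ((hdt _ _ _).1 h0))
  have hS : ∑ i, ∑ j, b i * b j * (if R i j then (1:ℝ) else 0) =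
      (∑ i, ∑ j, a i * a j * (if R i j then (1:ℝ) else 0)) / 9 := by
    rw [Finset.sum_div]
    refine Finset.sum_congr rfl fun i _ => ?_
    rw [Finset.sum_div]
    refine Finset.sum_congr rfl fun j _ => ?_
    simp only [hb]; ring
  rw [hS] at hcount
  set Sg := ∑ i, ∑ j, a i * a j * (if R i j then (1:ℝ) else 0) with hSg
  have hSg0 : 0 ≤ Sg := Finset.sum_nonneg fun i _ => Finset.sum_nonneg fun j _ =>
    mul_nonneg (mul_nonneg (h.pos i).le (h.pos j).le) (by split_ifs <;> norm_num)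
  have h1 : Sg / 9 ≤ (40 * η / 3) ^ ((1:ℝ) / 25) := by
    have h2 : (Sg / 9) = ((Sg / 9) ^ 25) ^ ((1:ℝ) / 25) := by
      rw [← Real.rpow_natCast, ← Real.rpow_mul (by positivity)]
      norm_num
    rw [h2]
    refine Real.rpow_le_rpow (by positivity) ?_ (by norm_num)
    linarith
  linarith

end FSH
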